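import Mathlib
import Pool.Agent.T2h21.YM.TorT
import Pool.Agent.T2h21.YM.InstR
import Pool.Agent.T2h21.YM.Perm

/-!
# Lattice Yang-Mills theory: confinement up to the mean field coupling

Wilson's lattice gauge theory on the torus `(ℤ/l)^d` with couplings which may depend on the
plaquette, and gauge group `G` a closed subgroup of `U(N)`. If the couplings of the plaquettes
which contain the direction `j` are at most `β` in absolute value, the other ones being arbitrary,
then the loops with the sides `R` in a direction `i ≠ j` and `T` in the direction `j` satisfy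
`|⟨(1/N) Re tr U(loop)⟩| ≤ (cosh (κ (l/2 - R)) / cosh (κ l / 2)) ^ T`, where `κ > 0` is given by
* `β (d - 2 + cosh κ) = 1`, so `β < 1 / (d - 1)`, if `G` contains all diagonal unitary matrices, or
  all unitary matrices which are block diagonal with `2 × 2` blocks of determinant one, for example
  `G = U(N)`, `SU(2 k)`, `Sp(k)`;
* `2 β (d - 2 + cosh κ) = 1`, so `β < 1 / (2 (d - 1))`, if `G` contains all real matrices which are
  block diagonal with `2 × 2` rotations as the blocks, for example `G = SO(2 k)`;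
* `exp (- κ) = β / (2 (1 - (d - 1) β) (1 - 2 (d - 1) β + β))`, `β < 1 / (2 (d - 1))`, if `N ≥ 3` and
  `G` contains all diagonal unitary matrices of determinant one, for example `G = SU(N)`.
In the infinite volume, all couplings `β`, the loops are positive and at most `exp (- κ R T)`, and
the static potential and the string tension exist and satisfy `V(R) ≥ κ R`, `σ ≥ κ`.
-/

open MeasureTheory Matrix Filter
open scoped Matrix.Norms.Frobenius Topology ContDiff

namespace Pool.Agent.Results.MP_7f377f_mp.A_MeanFieldConfinement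

set_option linter.unusedSectionVars false

noncomputable section

/-- Complex `N × N` matrices. -/
abbrev Mt (N : ℕ) := Matrix (Fin N) (Fin N) ℂ

/-- The unitary group `U(N)`. -/
abbrev UU (N : ℕ) := Matrix.unitaryGroup (Fin N) ℂ

/-- The matrix of an element of a subgroup of `U(N)`. -/
def mt {N : ℕ} {G : Subgroup (UU N)} (g : G) : Mt N := ((g : UU N) : Mt N)

/-- `G` contains all diagonal unitary matrices. -/
def HasTorus {N : ℕ} (G : Subgroup (UU N)) : Prop :=
  ∀ u : UU N, (∀ a b, a ≠ b → (u : Mt N) a b = 0) → u ∈ G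

/-- The coordinates are divided into pairs `{a, π a}`, and `G` contains all unitary matrices which
are block diagonal with respect to the pairs with all the `2 × 2` blocks of determinant one. -/
def HasPairs {N : ℕ} (G : Subgroup (UU N)) : Prop :=
  ∃ π : Fin N → Fin N, (∀ a, π (π a) = a) ∧ (∀ a, π a ≠ a) ∧
    ∀ u : UU N, (∀ a b, b ≠ a → b ≠ π a → (u : Mt N) a b = 0) →
      (∀ a, (u : Mt N) a a * (u : Mt N) (π a) (π a) -
        (u : Mt N) a (π a) * (u : Mt N) (π a) a = 1) → u ∈ G

/-- The coordinates are divided into pairs `{a, π a}`, and `G` contains all real unitary matrices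
which are block diagonal with respect to the pairs with all the `2 × 2` blocks of determinant
one. -/
def HasRotations {N : ℕ} (G : Subgroup (UU N)) : Prop :=
  ∃ π : Fin N → Fin N, (∀ a, π (π a) = a) ∧ (∀ a, π a ≠ a) ∧
    ∀ u : UU N, (∀ a b, ((u : Mt N) a b).im = 0) →
      (∀ a b, b ≠ a → b ≠ π a → (u : Mt N) a b = 0) →
      (∀ a, (u : Mt N) a a * (u : Mt N) (π a) (π a) -
        (u : Mt N) a (π a) * (u : Mt N) (π a) a = 1) → u ∈ G

/-- `G` contains all diagonal unitary matrices of determinant one. -/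
def HasSpecialTorus {N : ℕ} (G : Subgroup (UU N)) : Prop :=
  ∀ u : UU N, (∀ a b, a ≠ b → (u : Mt N) a b = 0) → ∏ a, (u : Mt N) a a = 1 → u ∈ G

/-- The rates `κ` for the coupling `β` and the various gauge groups, in dimension `d`. -/
def Rate {N : ℕ} (G : Subgroup (UU N)) (d : ℕ) (β κ : ℝ) : Prop :=
  ((HasTorus G ∨ HasPairs G) ∧ β * ((d : ℝ) - 2 + Real.cosh κ) = 1) ∨
  (HasRotations G ∧ 2 * β * ((d : ℝ) - 2 + Real.cosh κ) = 1) ∨
  (3 ≤ N ∧ HasSpecialTorus G ∧ 2 * (((d : ℝ) - 1) * β) < 1 ∧
    Real.exp (-κ) = β / (2 * (1 - ((d : ℝ) - 1) * β) * (1 - 2 * (((d : ℝ) - 1) * β) + β)))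

/-- Links of the periodic lattice `(ℤ/l)^d`: base point and direction. -/
abbrev Link (d l : ℕ) := (Fin d → ZMod l) × Fin d

/-- Links of the lattice `ℤ^d`: base point and direction. -/
abbrev LinkZ (d : ℕ) := (Fin d → ℤ) × Fin d

/-- The couplings of the plaquettes: `J x i k` is the one of the plaquette at `x` in the directions
`i < k`. -/
abbrev Coupl (d l : ℕ) := (Fin d → ZMod l) → Fin d → Fin d → ℝ

section

variable {N n d l : ℕ} {G : Subgroup (UU N)}

/-- The product of the link variables around the plaquette at `x` in the directions `i`, `k`. -/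
def plaq (U : Link d l → G) (x : Fin d → ZMod l) (i k : Fin d) : G :=
  U (x, i) * U (x + Pi.single i 1, k) * (U (x + Pi.single k 1, i))⁻¹ * (U (x, k))⁻¹

/-- The Wilson exponent `∑_p J_p Re tr U_p`, the sum over the plaquettes. -/
def expon [NeZero l] (J : Coupl d l) (U : Link d l → G) : ℝ :=
  ∑ x : Fin d → ZMod l, ∑ i : Fin d, ∑ k : Fin d,
    if i < k then J x i k * (trace (mt (plaq U x i k))).re else 0

/-- The periodic extension of a configuration. -/
def per (U : Link d l → G) : LinkZ d → G := fun e => U (fun i => (e.1 i : ZMod l), e.2)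

/-- The expectation of `F` in the lattice Yang-Mills theory on `(ℤ/l)^d` with the couplings `J`,
`μ` being the Haar measure. -/
def expect [NeZero l] [MeasurableSpace G] (μ : Measure G) (J : Coupl d l)
    (F : (LinkZ d → G) → ℝ) : ℝ :=
  (∫ U : Link d l → G, F (per U) * Real.exp (expon J U) ∂(Measure.pi fun _ => μ)) /
    ∫ U : Link d l → G, Real.exp (expon J U) ∂(Measure.pi fun _ => μ)

/-- `ν` is an infinite volume limit (weak limit along a subsequence) of the theories on the tori of
even side with all couplings `β`. -/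
structure IsInfVol [MeasurableSpace G] (μ : Measure G) (β : ℝ)
    (ν : Measure (LinkZ d → G)) : Prop where
  prob : IsProbabilityMeasure ν
  lim : ∃ s : ℕ → ℕ, Tendsto s atTop atTop ∧ ∀ F : (LinkZ d → G) → ℝ, Continuous F →
    Tendsto (fun k => expect (l := 2 * (s k + 1)) μ (fun _ _ _ => β) F) atTop (𝓝 (∫ V, F V ∂ν))

/-- The product of the link variables along the path of `k` steps in the direction `i` from `x`. -/
def line (V : LinkZ d → G) (i : Fin d) : ℕ → (Fin d → ℤ) → G
  | 0, _ => 1
  | k + 1, x => V (x, i) * line V i k (x + Pi.single i 1)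

/-- The product of the link variables around the rectangle with corner `x` and with the sides `R`
in the direction `i` and `T` in the direction `j`. -/
def loop (V : LinkZ d → G) (x : Fin d → ℤ) (i j : Fin d) (R T : ℕ) : G :=
  line V i R x * line V j T (x + Pi.single i (R : ℤ)) *
    (line V i R (x + Pi.single j (T : ℤ)))⁻¹ * (line V j T x)⁻¹

/-- The Wilson loop variable: `(1/N) Re tr` of the product around the rectangle. -/
def wl (x : Fin d → ℤ) (i j : Fin d) (R T : ℕ) (V : LinkZ d → G) : ℝ :=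
  (trace (mt (loop V x i j R T))).re / N

/-- The Wilson loop: the expectation of `(1/N) Re tr` of the product around the rectangle. -/
def wilson [MeasurableSpace G] (ν : Measure (LinkZ d → G)) (x : Fin d → ℤ) (i j : Fin d)
    (R T : ℕ) : ℝ := ∫ V, wl x i j R T V ∂ν

end

open Pool.Agent.H906R3 Pool.Agent.W793 Pool.Agent.TH618 Pool.Agent.T2h21

variable {N n d l : ℕ} {G : Subgroup (UU N)}

/-- A Haar probability measure is invariant under right multiplications. -/
lemma right_inv {H : Type*} [Group H] [TopologicalSpace H] [IsTopologicalGroup H]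
    [CompactSpace H] [MeasurableSpace H] [BorelSpace H] (μ : Measure H)
    [IsProbabilityMeasure μ] [μ.IsHaarMeasure] : μ.IsMulRightInvariant := by
  refine ⟨fun g => ?_⟩
  have h1 : IsProbabilityMeasure (Measure.map (fun x => x * g) μ) :=
    Measure.isProbabilityMeasure_map (measurable_mul_const g).aemeasurable
  exact Measure.isHaarMeasure_eq_of_isProbabilityMeasure _ _

/-- A Haar probability measure is invariant under the inversion. -/
lemma inv_inv' {H : Type*} [Group H] [TopologicalSpace H] [IsTopologicalGroup H]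
    [CompactSpace H] [MeasurableSpace H] [BorelSpace H] (μ : Measure H)
    [IsProbabilityMeasure μ] [μ.IsHaarMeasure] : μ.IsInvInvariant := by
  have hr := right_inv μ
  refine ⟨?_⟩
  have h1 : IsProbabilityMeasure μ.inv :=
    Measure.isProbabilityMeasure_map measurable_inv.aemeasurable
  have h2 : μ.inv.IsMulLeftInvariant := inferInstance
  have h3 : μ.inv.IsHaarMeasure :=
    Measure.isHaarMeasure_of_isCompact_nonempty_interior μ.inv Set.univ isCompact_univ
      (by simp) (by simp) (by simp)
  exact Measure.isHaarMeasure_eq_of_isProbabilityMeasure _ _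

lemma expon_eq [NeZero l] (B : YM.Frame G n) (J : Coupl d l) (U : Link d l → G) :
    expon J U = YM.HJ B.toLD J U := rfl

lemma expon_act [NeZero l] (B : YM.Frame G n) (β : ℝ) :
    ∃ c : ℝ, ∀ U : Link d l → G, expon (fun _ _ _ => β) U = c + -(β * YM.act B.toLD U) := by
  refine ⟨β * ∑ x : Fin d → ZMod l, ∑ i : Fin d, ∑ k : Fin d, if i < k then (N : ℝ) else 0,
    fun U => ?_⟩
  have h1 : YM.act B.toLD U = ∑ x : Fin d → ZMod l, ∑ i : Fin d, ∑ k : Fin d,
    if i < k then (trace (1 - mt (plaq U x i k))).re else 0 := rfl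
  rw [h1, ← mul_neg, ← mul_add, ← Finset.sum_neg_distrib, ← Finset.sum_add_distrib,
    Finset.mul_sum]
  unfold expon
  refine Finset.sum_congr rfl fun x _ => ?_
  rw [← Finset.sum_neg_distrib, ← Finset.sum_add_distrib, Finset.mul_sum]
  refine Finset.sum_congr rfl fun i _ => ?_
  rw [← Finset.sum_neg_distrib, ← Finset.sum_add_distrib, Finset.mul_sum]
  refine Finset.sum_congr rfl fun k _ => ?_
  split_ifs
  · rw [trace_sub, Matrix.trace_one, Fintype.card_fin, Complex.sub_re, Complex.natCast_re]
    ring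
  · ring

section bridge

variable [CompactSpace G] [SecondCountableTopology G] [MeasurableSpace G] [BorelSpace G]
  (μ : Measure G) [IsProbabilityMeasure μ] [μ.IsHaarMeasure] (B : YM.Frame G n)

lemma expect_eq [NeZero l] (β : ℝ) (F : (LinkZ d → G) → ℝ) :
    expect (l := l) μ (fun _ _ _ => β) F =
    YM.EX μ B.toLD β (fun U : YM.Ed d l → G => F (YM.lf U)) := by
  obtain ⟨c, hc⟩ := expon_act (d := d) (l := l) B β
  unfold expect YM.EX YM.Zt
  have h1 : ∀ f : (Link d l → G) → ℝ, ∫ U : Link d l → G, f U *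
      Real.exp (expon (fun _ _ _ => β) U) ∂(Measure.pi fun _ => μ) =
      Real.exp c * ∫ U : Link d l → G, f U * Real.exp (-(β * YM.act B.toLD U))
        ∂(Measure.pi fun _ => μ) := by
    intro f
    rw [← integral_const_mul]
    refine integral_congr_ae (Filter.Eventually.of_forall fun U => ?_)
    simp only
    rw [hc U, Real.exp_add]
    ring
  have h2 := h1 (fun _ => 1)
  simp only [one_mul] at h2
  rw [h1, h2]
  simp only [one_mul]
  exact mul_div_mul_left _ _ (Real.exp_ne_zero c)

include B in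
lemma expon_cont [NeZero l] (J : Coupl d l) : Continuous (expon J : (Link d l → G) → ℝ) :=
  YM.HJ_cont (L := B.toLD) J

include B in
/-- existence of infinite volume limits -/
lemma exists_infVol (β : ℝ) : ∃ ν : Measure (LinkZ d → G), IsInfVol μ β ν := by
  have hP : ∀ j : ℕ, ∃ P : ProbabilityMeasure (LinkZ d → G),
      ∀ F : (LinkZ d → G) → ℝ, Continuous F →
        ∫ V, F V ∂(P : Measure (LinkZ d → G)) =
          expect (l := 2 * (j + 1)) μ (fun _ _ _ => β) F := by
    intro j
    have hper : Continuous (per : (Link d (2 * (j + 1)) → G) → LinkZ d → G) :=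
      continuous_pi fun e => continuous_apply _
    have hexp : Continuous fun U : Link d (2 * (j + 1)) → G =>
        Real.exp (expon (fun _ _ _ => β) U) :=
      Real.continuous_exp.comp (expon_cont B _)
    have hint : Integrable (fun U : Link d (2 * (j + 1)) → G =>
        Real.exp (expon (fun _ _ _ => β) U)) (Measure.pi fun _ => μ) :=
      hexp.integrable_of_hasCompactSupport (HasCompactSupport.of_compactSpace _)
    have h1 := isProbabilityMeasure_tilted (f := fun U : Link d (2 * (j + 1)) → G =>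
      expon (fun _ _ _ => β) U) hint
    refine ⟨⟨((Measure.pi fun _ => μ).tilted fun U : Link d (2 * (j + 1)) → G =>
      expon (fun _ _ _ => β) U).map per, Measure.isProbabilityMeasure_map hper.aemeasurable⟩,
      fun F hF => ?_⟩
    show ∫ V, F V ∂(((Measure.pi fun _ => μ).tilted fun U : Link d (2 * (j + 1)) → G =>
      expon (fun _ _ _ => β) U).map per) = _
    rw [integral_map hper.aemeasurable hF.aestronglyMeasurable, integral_tilted]
    unfold expect
    rw [← integral_div]
    refine integral_congr_ae (Filter.Eventually.of_forall fun U => ?_)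
    simp only [smul_eq_mul]
    ring
  choose P hP using hP
  obtain ⟨ν, s, hs, hlim⟩ := CompactSpace.tendsto_subseq P
  refine ⟨ν, ⟨inferInstance, s, hs.tendsto_atTop, fun F hF => ?_⟩⟩
  have h1 := (ProbabilityMeasure.tendsto_iff_forall_integral_tendsto.1 hlim)
    (BoundedContinuousFunction.mkOfCompact ⟨F, hF⟩)
  simp only [Function.comp_apply, BoundedContinuousFunction.mkOfCompact_apply,
    ContinuousMap.coe_mk] at h1
  simpa only [hP _ F hF] using h1

/-- straight lines in a periodic configuration -/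
lemma line_lf (U : YM.Ed d l → G) (i : Fin d) (k : ℕ) (x : Fin d → ℤ) :
    line (YM.lf U) i k x = YM.ln U i k (YM.zt l x) := by
  induction k generalizing x with
  | zero => rfl
  | succ k ih =>
    rw [YM.ln_succ]
    show YM.lf U (x, i) * line (YM.lf U) i k (x + Pi.single i 1) = _
    rw [ih, YM.zt_add]
    rfl

lemma zt_nsmul (x : Fin d → ℤ) (i : Fin d) (k : ℕ) :
    YM.zt l (x + Pi.single i (k : ℤ)) = YM.zt l x + k • YM.eT i := by
  funext j
  unfold YM.zt YM.eT
  by_cases h : j = i
  · subst h; simp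
  · simp [h]

lemma loop_lf (U : YM.Ed d l → G) (x : Fin d → ℤ) (i j : Fin d) (R T : ℕ) :
    loop (YM.lf U) x i j R T = YM.rect U (YM.zt l x) i j R T := by
  unfold loop YM.rect
  rw [line_lf, line_lf, line_lf, line_lf, zt_nsmul, zt_nsmul]

lemma line_cont (i : Fin d) (k : ℕ) (x : Fin d → ℤ) :
    Continuous fun V : LinkZ d → G => line V i k x := by
  induction k generalizing x with
  | zero => exact continuous_const
  | succ k ih => exact (continuous_apply _).mul (ih _)

lemma loop_cont (x : Fin d → ℤ) (i j : Fin d) (R T : ℕ) :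
    Continuous fun V : LinkZ d → G => wl x i j R T V := by
  have h1 : Continuous fun V : LinkZ d → G => loop V x i j R T :=
    (((line_cont _ _ _).mul (line_cont _ _ _)).mul (line_cont _ _ _).inv).mul (line_cont _ _ _).inv
  have h2 : Continuous (mt : G → Mt N) := continuous_subtype_val.comp continuous_subtype_val
  exact (Complex.continuous_re.comp (h2.comp h1).matrix_trace).div_const _

lemma expect_loop [NeZero l] (β : ℝ) (x : Fin d → ℤ) (i j : Fin d) (R T : ℕ) :
    expect (l := l) μ (fun _ _ _ => β) (wl x i j R T) =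
      YM.EX μ B.toLD β (fun U : YM.Ed d l → G => YM.rt B.toLD (YM.rect U 0 i j R T)) / N := by
  have := right_inv μ
  have := inv_inv' μ
  rw [expect_eq μ B]
  have h1 : (fun U : YM.Ed d l → G => wl x i j R T (YM.lf U)) =
      fun U => (1 / (N : ℝ)) * YM.rt B.toLD (YM.rect (YM.tr (YM.zt l x) U) 0 i j R T) := by
    funext U
    unfold wl
    rw [loop_lf, YM.rect_tr, zero_add, div_eq_mul_one_div, mul_comm]
    rfl
  rw [h1, YM.EX_smul, YM.EX_tr μ (YM.zt l x)
    (fun U : YM.Ed d l → G => YM.rt B.toLD (YM.rect U 0 i j R T))]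
  ring

end bridge

/-- a Haar probability measure on a compact group -/
lemma exists_haar (K : Type*) [Group K] [TopologicalSpace K] [IsTopologicalGroup K]
    [CompactSpace K] [MeasurableSpace K] [BorelSpace K] :
    ∃ κ : Measure K, IsProbabilityMeasure κ ∧ κ.IsMulLeftInvariant :=
  ⟨Measure.haarMeasure ⊤, ⟨Measure.haarMeasure_self⟩, inferInstance⟩

/-- the bounds of the two forms -/
lemma cosh_le {κ : ℝ} (hκ : 0 < κ) {l R : ℕ} (hR : R ≤ l) :
    Real.exp (-κ) ^ (min R (l - R)) ≤
      Real.cosh (κ * (l / 2 - R)) / Real.cosh (κ * (l / 2)) := by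
  rw [le_div_iff₀ (Real.cosh_pos _), ← Real.exp_nat_mul]
  obtain ⟨K, hK⟩ : ∃ K : ℕ, K = min R (l - R) := ⟨_, rfl⟩
  rw [← hK]
  have hK0 : (0 : ℝ) ≤ K := Nat.cast_nonneg _
  have h1 : Real.cosh (κ * (l / 2 - R)) = Real.cosh (κ * (l / 2 - K)) := by
    rcases le_total R (l - R) with h | h
    · rw [hK, min_eq_left h]
    · rw [hK, min_eq_right h, Nat.cast_sub hR, ← Real.cosh_neg]
      congr 1
      ring
  rw [h1, Real.cosh_eq, Real.cosh_eq]
  have h2 : Real.exp ((K : ℝ) * -κ) * ((Real.exp (κ * (l / 2)) + Real.exp (-(κ * (l / 2)))) / 2) =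
      (Real.exp (κ * (l / 2 - K)) + Real.exp (-(κ * (l / 2)) - K * κ)) / 2 := by
    have e1 : Real.exp (κ * (l / 2 - K)) = Real.exp ((K : ℝ) * -κ) * Real.exp (κ * (l / 2)) := by
      rw [← Real.exp_add]; congr 1; ring
    have e2 : Real.exp (-(κ * (l / 2)) - K * κ) =
        Real.exp ((K : ℝ) * -κ) * Real.exp (-(κ * (l / 2))) := by
      rw [← Real.exp_add]; congr 1; ring
    rw [e1, e2]
    ring
  rw [h2]
  have h3 : Real.exp (-(κ * (l / 2)) - K * κ) ≤ Real.exp (-(κ * (l / 2 - K))) := by
    rw [Real.exp_le_exp]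
    have := mul_nonneg hK0 hκ.le
    linarith
  linarith

/-- the area law on the torus -/
lemma area (hN : 1 ≤ N) (B : YM.Frame G n)
    [CompactSpace G] [SecondCountableTopology G] [MeasurableSpace G] [BorelSpace G]
    (μ : Measure G) [IsProbabilityMeasure μ] [μ.IsHaarMeasure] {β κ : ℝ} (hβ : 0 < β)
    (hκ : 0 < κ) (hG : Rate G d β κ) [NeZero l] (hl : 2 ≤ l)
    {J : Coupl d l} {i j : Fin d} (hij : i ≠ j)
    (hJ : ∀ x k, k ≠ j → |J x (min k j) (max k j)| ≤ β) {R T : ℕ} (hR : R ≤ l) (hR2 : 2 * R ≠ l)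
    (hT : T ≤ l) (x : Fin d → ℤ) :
    |expect μ J (wl (G := G) x i j R T)| ≤
      (Real.cosh (κ * (l / 2 - R)) / Real.cosh (κ * (l / 2))) ^ T := by
  have hN0 : (0 : ℝ) < N := by exact_mod_cast hN
  have hJ' : ∀ x k, k ≠ j → |YM.Jv j J (x, k)| ≤ β := by
    intro x k hk
    have h1 := hJ x k hk
    unfold YM.Jv
    simp only
    rcases lt_or_gt_of_ne hk with h | h
    · rw [min_eq_left h.le, max_eq_right h.le] at h1
      simpa [h, h.not_gt] using h1
    · rw [min_eq_right h.le, max_eq_left h.le] at h1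
      simpa [h, h.not_gt] using h1
  have hZ : 0 < ∫ U, Real.exp (YM.HJ B.toLD J U) ∂(YM.ME μ (YM.Ed d l)) := by
    refine integral_exp_pos ?_
    exact (Real.continuous_exp.comp (YM.HJ_cont (L := B.toLD) J)).integrable_of_hasCompactSupport
      (HasCompactSupport.of_compactSpace _)
  have e3 : YM.ph l κ R / YM.ph l κ 0 =
      Real.cosh (κ * (l / 2 - R)) / Real.cosh (κ * (l / 2)) := by
    unfold YM.ph
    rw [sub_zero]
  have key : |∫ U, YM.rt B.toLD (YM.rect U (YM.zt l x) i j R T) *
      Real.exp (YM.HJ B.toLD J U) ∂(YM.ME μ (YM.Ed d l))| ≤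
      N * ((Real.cosh (κ * (l / 2 - R)) / Real.cosh (κ * (l / 2))) ^ T *
        ∫ U, Real.exp (YM.HJ B.toLD J U) ∂(YM.ME μ (YM.Ed d l))) := by
    rcases hG with ⟨h | ⟨π, h1, h2, h3⟩, hc⟩ | ⟨⟨π, h1, h2, h3⟩, hc⟩ | ⟨hN3, h, h1, h2⟩
    · let : MeasurableSpace Circle := borel Circle
      have : BorelSpace Circle := ⟨rfl⟩
      obtain ⟨ν, hν1, hν2⟩ := exists_haar Circle
      rw [← e3]
      exact YM.torus ν μ (YM.blkDiag B h) le_rfl hl (β₁ := β) (by norm_num) hκ hβ hβ hc hJ' hij
        hR hT _
    · let : MeasurableSpace YM.UQ := borel YM.UQ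
      have : BorelSpace YM.UQ := ⟨rfl⟩
      obtain ⟨ν, hν1, hν2⟩ := exists_haar YM.UQ
      rw [← e3]
      exact YM.torus ν μ (YM.blkPair π B h1 h2 h3) (by norm_num) hl (β₁ := β) (by norm_num) hκ hβ hβ
        hc hJ' hij hR hT _
    · let : MeasurableSpace Circle := borel Circle
      have : BorelSpace Circle := ⟨rfl⟩
      obtain ⟨ν, hν1, hν2⟩ := exists_haar Circle
      rw [← e3]
      exact YM.torus ν μ (YM.blkRot π B h1 h2 h3) le_rfl hl (β₁ := 2 * β)
        (le_of_eq (by push_cast; ring)) hκ hβ (by positivity) hc hJ' hij hR hT _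
    · let : MeasurableSpace Circle := borel Circle
      have : BorelSpace Circle := ⟨rfl⟩
      obtain ⟨ν, hν1, hν2⟩ := exists_haar Circle
      refine (YM.torT ν μ (YM.trsOf B h) hN3 hl hβ h1 hJ' hij hR hR2 hT _).trans ?_
      refine mul_le_mul_of_nonneg_left ?_ hN0.le
      refine mul_le_mul_of_nonneg_right ?_ hZ.le
      have h3 : YM.thT d β = Real.exp (-κ) := by
        rw [h2]; rfl
      rw [h3]
      exact pow_le_pow_left₀ (by positivity) (cosh_le hκ hR) T
  have e1 : expect μ J (wl (G := G) x i j R T) =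
      (∫ U, YM.rt B.toLD (YM.rect U (YM.zt l x) i j R T) *
      Real.exp (YM.HJ B.toLD J U) ∂(YM.ME μ (YM.Ed d l))) / N /
        ∫ U, Real.exp (YM.HJ B.toLD J U) ∂(YM.ME μ (YM.Ed d l)) := by
    unfold expect
    congr 1
    rw [← integral_div (N : ℝ)]
    refine integral_congr_ae (Filter.Eventually.of_forall fun U => ?_)
    simp only
    have e2 : wl x i j R T (per U) = YM.rt B.toLD (YM.rect U (YM.zt l x) i j R T) / N := by
      unfold wl
      have := loop_lf (l := l) U x i j R T
      show (trace (mt (loop (YM.lf U) x i j R T))).re / N = _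
      rw [this]
      rfl
    rw [e2, expon_eq B]
    ring
  rw [e1, abs_div, abs_div, abs_of_pos hZ, abs_of_pos hN0, div_div, div_le_iff₀ (by positivity)]
  refine key.trans (le_of_eq ?_)
  ring

/-- the ratio in the limit -/
lemma tend_ratio {m : ℝ} (hm : 0 < m) (R T : ℕ) {s : ℕ → ℕ} (hs : Tendsto s atTop atTop) :
    Tendsto (fun k => (Real.cosh (m * (((2 * (s k + 1) : ℕ) : ℝ) / 2 - R)) /
      Real.cosh (m * (((2 * (s k + 1) : ℕ) : ℝ) / 2))) ^ T) atTop
      (𝓝 (Real.exp (-(m * R * T)))) := by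
  have h1 : Tendsto (fun k => m * (((2 * (s k + 1) : ℕ) : ℝ) / 2)) atTop atTop := by
    have h2 : Tendsto (fun k => ((s k : ℝ) + 1)) atTop atTop :=
      tendsto_atTop_add_const_right _ _ (tendsto_natCast_atTop_atTop.comp hs)
    refine (h2.const_mul_atTop hm).congr fun k => ?_
    push_cast
    ring
  have h3 : Tendsto (fun y : ℝ => Real.cosh (y - m * R) / Real.cosh y) atTop
      (𝓝 (Real.exp (-(m * R)))) := by
    have e1 : ∀ y : ℝ, Real.cosh (y - m * R) / Real.cosh y =
        (Real.exp (-(m * R)) + Real.exp (m * R) * Real.exp (-(2 * y))) /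
          (1 + Real.exp (-(2 * y))) := by
      intro y
      have f1 : Real.exp (-(2 * y)) = Real.exp (-y) * Real.exp (-y) := by
        rw [← Real.exp_add]; congr 1; ring
      have f2 : Real.exp (y - m * R) = Real.exp y * Real.exp (-(m * R)) := by
        rw [← Real.exp_add]; congr 1
      have f3 : Real.exp (-(y - m * R)) = Real.exp (-y) * Real.exp (m * R) := by
        rw [← Real.exp_add]; congr 1; ring
      have f4 : Real.exp y * Real.exp (-y) = 1 := by rw [← Real.exp_add]; simp
      have f5 := Real.exp_pos y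
      have f6 := Real.exp_pos (-y)
      rw [Real.cosh_eq, Real.cosh_eq, f2, f3, f1, div_div_div_cancel_right₀ two_ne_zero,
        div_eq_div_iff (by positivity) (by positivity)]
      linear_combination (Real.exp (-(m * R)) * Real.exp (-y) -
        Real.exp (-y) * Real.exp (m * R)) * f4
    have h4 : Tendsto (fun y : ℝ => Real.exp (-(2 * y))) atTop (𝓝 0) :=
      Real.tendsto_exp_neg_atTop_nhds_zero.comp
        (tendsto_id.const_mul_atTop (by norm_num : (0 : ℝ) < 2))
    have h5 : Tendsto (fun y : ℝ =>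
        (Real.exp (-(m * R)) + Real.exp (m * R) * Real.exp (-(2 * y))) /
          (1 + Real.exp (-(2 * y)))) atTop
        (𝓝 ((Real.exp (-(m * R)) + Real.exp (m * R) * 0) / (1 + 0))) :=
      (tendsto_const_nhds.add (h4.const_mul _)).div (tendsto_const_nhds.add h4) (by norm_num)
    simp only [mul_zero, add_zero, div_one] at h5
    exact h5.congr fun y => (e1 y).symm
  have h6 := ((h3.comp h1).pow T)
  have e2 : Real.exp (-(m * R)) ^ T = Real.exp (-(m * R * T)) := by
    rw [← Real.exp_nat_mul]
    congr 1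
    ring
  rw [e2] at h6
  refine h6.congr fun k => ?_
  simp only [Function.comp_apply]
  rw [mul_sub]

/-- the centre -/
lemma centre (hN : 1 ≤ N) (B : YM.Frame G n) {β κ : ℝ} (hG : Rate G d β κ) :
    ∃ (c : G) (z0 : ℂ), B.toLD.rho c = z0 • (1 : Mt N) ∧ z0 ≠ 1 := by
  have hneg : (-1 : UU N) ∈ G → ∃ (c : G) (z0 : ℂ), B.toLD.rho c = z0 • (1 : Mt N) ∧ z0 ≠ 1 := by
    intro h
    refine ⟨⟨-1, h⟩, -1, ?_, by norm_num⟩
    rw [neg_smul, one_smul]
    rfl
  have e0 : ∀ a b : Fin N, b ≠ a → (-(1 : Mt N)) a b = 0 := fun a b h => by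
    rw [Matrix.neg_apply, Matrix.one_apply_ne h.symm, neg_zero]
  have e1 : ∀ a : Fin N, (-(1 : Mt N)) a a = -1 := fun a => by
    rw [Matrix.neg_apply, Matrix.one_apply_eq]
  rcases hG with ⟨h | ⟨π, h1, h2, h3⟩, -⟩ | ⟨⟨π, h1, h2, h3⟩, -⟩ | ⟨hN3, h, -, -⟩
  · exact hneg (h _ fun a b hab => e0 a b hab.symm)
  · refine hneg (h3 _ (fun a b hab _ => e0 a b hab) fun a => ?_)
    show (-(1 : Mt N)) a a * (-(1 : Mt N)) (π a) (π a) -
      (-(1 : Mt N)) a (π a) * (-(1 : Mt N)) (π a) a = 1
    rw [e1, e1, e0 _ _ (h2 a)]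
    norm_num
  · refine hneg (h3 _ (fun a b => ?_) (fun a b hab _ => e0 a b hab) fun a => ?_)
    · show ((-(1 : Mt N)) a b).im = 0
      by_cases hab : b = a
      · subst hab
        rw [e1]; simp
      · rw [e0 _ _ hab]; rfl
    · show (-(1 : Mt N)) a a * (-(1 : Mt N)) (π a) (π a) -
        (-(1 : Mt N)) a (π a) * (-(1 : Mt N)) (π a) a = 1
      rw [e1, e1, e0 _ _ (h2 a)]
      norm_num
  · have hN0 : N ≠ 0 := by omega
    obtain ⟨z, hz⟩ : ∃ z : ℂ, z = Complex.exp (2 * Real.pi * Complex.I / N) := ⟨_, rfl⟩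
    have hprim : IsPrimitiveRoot z N := by rw [hz]; exact Complex.isPrimitiveRoot_exp N hN0
    have hzc : z * star z = 1 := by
      show z * (starRingEnd ℂ) z = 1
      rw [Complex.mul_conj, Complex.normSq_eq_norm_sq, Complex.norm_eq_one_of_pow_eq_one
        hprim.pow_eq_one hN0]
      simp
    have hu : z • (1 : Mt N) ∈ Matrix.unitaryGroup (Fin N) ℂ := by
      rw [Matrix.mem_unitaryGroup_iff, star_smul, star_one, smul_mul_smul_comm, one_mul, hzc,
        one_smul]
    have hmem : (⟨z • (1 : Mt N), hu⟩ : UU N) ∈ G := by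
      refine h _ (fun a b hab => ?_) ?_
      · show (z • (1 : Mt N)) a b = 0
        rw [Matrix.smul_apply, Matrix.one_apply_ne hab, smul_zero]
      · show ∏ a, (z • (1 : Mt N)) a a = 1
        simp only [Matrix.smul_apply, Matrix.one_apply_eq, smul_eq_mul, mul_one,
          Finset.prod_const, Finset.card_univ, Fintype.card_fin]
        exact hprim.pow_eq_one
    refine ⟨⟨_, hmem⟩, z, rfl, hprim.ne_one (by omega)⟩

theorem result {N d : ℕ} (hN : 1 ≤ N) (G : Subgroup (UU N)) (hG : IsClosed (G : Set (UU N)))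
    [MeasurableSpace G] [BorelSpace G] (μ : Measure G)
    [IsProbabilityMeasure μ] [μ.IsHaarMeasure] {β κ : ℝ} (hβ : 0 < β) (hκ : 0 < κ)
    (hrate : Rate G d β κ) {i j : Fin d} (hij : i ≠ j) :
    (∀ (l : ℕ) [NeZero l], 2 ≤ l → ∀ J : Coupl d l,
      (∀ x k, k ≠ j → |J x (min k j) (max k j)| ≤ β) →
      ∀ (x : Fin d → ℤ) (R T : ℕ), R ≤ l → 2 * R ≠ l → T ≤ l →
        |expect μ J (wl (G := G) x i j R T)| ≤
          (Real.cosh (κ * (l / 2 - R)) / Real.cosh (κ * (l / 2))) ^ T) ∧
    (∀ ν : Measure (LinkZ d → G), IsInfVol μ β ν →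
      (∀ (x : Fin d → ℤ) (R T : ℕ), 0 < wilson ν x i j R T ∧
        wilson ν x i j R T ≤ Real.exp (-(κ * R * T))) ∧
      ∃ (V : ℕ → ℝ) (σ : ℝ),
        (∀ (x : Fin d → ℤ) (R : ℕ), Tendsto (fun T : ℕ => -Real.log (wilson ν x i j R T) / T)
          atTop (𝓝 (V R))) ∧
        (∀ R : ℕ, κ * R ≤ V R) ∧
        Tendsto (fun R : ℕ => V R / R) atTop (𝓝 σ) ∧ κ ≤ σ) ∧
    ∃ ν : Measure (LinkZ d → G), IsInfVol μ β ν := by
  have : CompactSpace G := by
    have h1 : IsCompact (G : Set (UU N)) := hG.isCompact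
    exact isCompact_iff_compactSpace.1 h1
  have h00 : SecondCountableTopology (UU N) := TopologicalSpace.Subtype.secondCountableTopology _
  have : SecondCountableTopology G := TopologicalSpace.Subtype.secondCountableTopology _
  have := right_inv μ
  have := inv_inv' μ
  obtain ⟨n, ⟨B⟩⟩ := YM.exists_frame hG
  have hN0 : (0 : ℝ) < N := by exact_mod_cast hN
  refine ⟨fun l _ hl J hJ x R T hR hR2 hT' => area hN B μ hβ hκ hrate hl hij hJ hR hR2 hT' x,
    fun ν hν => ?_, exists_infVol μ B β⟩
  obtain ⟨s, hs, hlim⟩ := hν.lim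
  have hw : ∀ (x : Fin d → ℤ) (R T : ℕ),
      Tendsto (fun k => YM.wR2 μ B.toLD (s k + 1) β i j R T) atTop (𝓝 (wilson ν x i j R T)) := by
    intro x R T
    refine (hlim _ (loop_cont x i j R T)).congr fun k => ?_
    exact expect_loop μ B β x i j R T
  have hx : ∀ (x : Fin d → ℤ) (R T : ℕ), wilson ν x i j R T = wilson ν 0 i j R T := fun x R T =>
    tendsto_nhds_unique (hw x R T) (hw 0 R T)
  obtain ⟨c, z0, hcen, hz0⟩ := centre hN B hrate
  obtain ⟨hpos, -, -, P, σ, h1, h2, h3, h4, h5⟩ := YM.limits μ (L := B.toLD) hcen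
    hz0 hN hβ hij (w := fun R T => wilson ν 0 i j R T) hs (fun R T => hw 0 R T)
  -- the area law
  have hA : ∀ R T : ℕ, wilson ν 0 i j R T ≤ Real.exp (-(κ * R * T)) := by
    intro R T
    refine le_of_tendsto_of_tendsto (hlim _ (loop_cont 0 i j R T)) (tend_ratio hκ R T hs) ?_
    filter_upwards [hs.eventually_ge_atTop (R + T + 2)] with k hk
    exact (le_abs_self _).trans (area hN B μ hβ hκ hrate (by omega) hij
      (fun x k _ => by rw [abs_of_pos hβ]) (by omega) (by omega) (by omega) 0)
  have hV : ∀ R : ℕ, κ * R ≤ P R := by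
    intro R
    refine ge_of_tendsto (h1 R) ?_
    filter_upwards [Filter.eventually_ge_atTop 1] with T hT'
    have hT0 : (0 : ℝ) < T := by exact_mod_cast hT'
    rw [le_div_iff₀ hT0]
    have f1 := Real.log_le_log (hpos R T) (hA R T)
    rw [Real.log_exp] at f1
    linarith
  refine ⟨fun x R T => by rw [hx]; exact ⟨hpos R T, hA R T⟩, P, σ, fun x R => ?_, hV, h2, ?_⟩
  · simp only [hx x]
    exact h1 R
  · refine ge_of_tendsto h2 ?_
    filter_upwards [Filter.eventually_ge_atTop 1] with R hR
    have hR0 : (0 : ℝ) < R := by exact_mod_cast hR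
    rw [le_div_iff₀ hR0]
    exact hV R

end

end Pool.Agent.Results.MP_7f377f_mp.A_MeanFieldConfinement
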