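import Mathlib
import Pool.Agent.H906R3.YM.Conc
import Pool.Agent.W793.YM.Inf
import Pool.Agent.TH618.YM.Cartan
import Pool.Agent.T2h94.Lw8

/-!
# Lattice Yang-Mills theory at weak coupling: the curvature converges in law to Maxwell's field

Wilson's lattice gauge theory in dimension `d ≥ 3` with gauge group a closed subgroup `G` of `U(N)`,
in the infinite volume, with the lattice spacings `a_i → 0` and the inverse couplings
`β_i ≥ a_i ^ (-(60 d + 88))`. The curvatures, transported to the origin along lattice paths and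
smeared with a test form with values in the Lie algebra of `G`, converge in law to the free Maxwell
field with values in this Lie algebra.
-/

open MeasureTheory Matrix Filter
open scoped Matrix.Norms.Frobenius Topology ContDiff

namespace Pool.Agent.Results.MP_7f377f_mp.B_CurvatureInLaw

set_option linter.unusedSectionVars false

noncomputable section

/-- Complex `N × N` matrices. -/
abbrev Mt (N : ℕ) := Matrix (Fin N) (Fin N) ℂ

/-- The unitary group `U(N)`. -/
abbrev UU (N : ℕ) := Matrix.unitaryGroup (Fin N) ℂ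

/-- The matrix of an element of a subgroup of `U(N)`. -/
def mt {N : ℕ} {G : Subgroup (UU N)} (g : G) : Mt N := ((g : UU N) : Mt N)

/-- The Lie algebra of `G`: the real span of all matrices `Y` with `exp (t Y) ∈ G` for all real
`t`. -/
def lieAlg {N : ℕ} (G : Subgroup (UU N)) : Submodule ℝ (Mt N) :=
  Submodule.span ℝ {Y : Mt N | ∀ t : ℝ, ∃ g : G, mt g = NormedSpace.exp (t • Y)}

/-- Links of the periodic lattice `(ℤ/l)^d`: base point and direction. -/
abbrev Link (d l : ℕ) := (Fin d → ZMod l) × Fin d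

/-- Links of the lattice `ℤ^d`: base point and direction. -/
abbrev LinkZ (d : ℕ) := (Fin d → ℤ) × Fin d

section

variable {N n d l : ℕ} {G : Subgroup (UU N)}

/-- The product of the link variables around the plaquette at `x` in the directions `i`, `j`. -/
def plaq (U : Link d l → G) (x : Fin d → ZMod l) (i j : Fin d) : G :=
  U (x, i) * U (x + Pi.single i 1, j) * (U (x + Pi.single j 1, i))⁻¹ * (U (x, j))⁻¹

/-- The Wilson action `∑_p Re tr (1 - U_p)`, the sum over the plaquettes. -/
def action [NeZero l] (U : Link d l → G) : ℝ :=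
  ∑ x : Fin d → ZMod l, ∑ i : Fin d, ∑ j : Fin d,
    if i < j then (trace (1 - mt (plaq U x i j))).re else 0

/-- The periodic extension of a configuration. -/
def per (U : Link d l → G) : LinkZ d → G := fun e => U (fun i => (e.1 i : ZMod l), e.2)

/-- The expectation of `F` in the lattice Yang-Mills theory on `(ℤ/l)^d`, `μ` being the Haar
measure. -/
def expect (l : ℕ) [NeZero l] [MeasurableSpace G] (μ : Measure G) (β : ℝ)
    (F : (LinkZ d → G) → ℝ) : ℝ :=
  (∫ U : Link d l → G, F (per U) * Real.exp (-(β * action U)) ∂(Measure.pi fun _ => μ)) /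
    ∫ U : Link d l → G, Real.exp (-(β * action U)) ∂(Measure.pi fun _ => μ)

/-- `ν` is an infinite volume limit (weak limit along a subsequence) of the theories on the tori of
even side at inverse coupling `β`. -/
structure IsInfVol [MeasurableSpace G] (μ : Measure G) (β : ℝ)
    (ν : Measure (LinkZ d → G)) : Prop where
  prob : IsProbabilityMeasure ν
  lim : ∃ s : ℕ → ℕ, Tendsto s atTop atTop ∧ ∀ F : (LinkZ d → G) → ℝ, Continuous F →
    Tendsto (fun j => expect (2 * (s j + 1)) μ β F) atTop (𝓝 (∫ V, F V ∂ν))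

/-- The product of the link variables around the plaquette of `ℤ^d` at `x` in the directions `i`,
`j`. -/
def plaqZ (V : LinkZ d → G) (x : Fin d → ℤ) (i j : Fin d) : G :=
  V (x, i) * V (x + Pi.single i 1, j) * (V (x + Pi.single j 1, i))⁻¹ * (V (x, j))⁻¹

/-- The end point of a lattice path. A path is a list of steps, `(j, true)` being a step in the
direction `e_j` and `(j, false)` a step in the direction `-e_j`; it starts at the given point. -/
def endpoint {d : ℕ} : (Fin d → ℤ) → List (Fin d × Bool) → (Fin d → ℤ)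
  | x, [] => x
  | x, (j, true) :: p => endpoint (x + Pi.single j 1) p
  | x, (j, false) :: p => endpoint (x - Pi.single j 1) p

/-- The parallel transport along a lattice path which starts at the given point: the ordered product
of its link variables. -/
def transport (V : LinkZ d → G) : (Fin d → ℤ) → List (Fin d × Bool) → G
  | _, [] => 1
  | x, (j, true) :: p => V (x, j) * transport V (x + Pi.single j 1) p
  | x, (j, false) :: p => (V (x - Pi.single j 1, j))⁻¹ * transport V (x - Pi.single j 1) p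

/-- The curvature at `x` in the directions `j`, `k`, transported to the origin along the path
`P x`. -/
def transported (P : (Fin d → ℤ) → List (Fin d × Bool)) (V : LinkZ d → G) (x : Fin d → ℤ)
    (j k : Fin d) : Mt N :=
  mt (transport V 0 (P x) * plaqZ V x j k * (transport V 0 (P x))⁻¹)

/-- The curvature, transported to the origin, smeared with the test form `f` in the theory with
lattice spacing `a` and inverse coupling `β`: the sum over all sites `x` and all `j`, `k` of
`(1/2) (β a^d)^(1/2) Re tr (f_{jk}(a x)^* F_{jk}(x))`. -/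
def smeared (a β : ℝ) (P : (Fin d → ℤ) → List (Fin d × Bool))
    (f : Fin d → Fin d → (Fin d → ℝ) → Mt N) (V : LinkZ d → G) : ℝ :=
  Real.sqrt (β * a ^ d) * (1 / 2 * ∑' x : Fin d → ℤ, ∑ j, ∑ k,
    (trace ((f j k fun s => a * (x s : ℝ))ᴴ * transported P V x j k)).re)

end

/-- The Green function `Γ(d/2 - 1) / (4 π^(d/2)) |X|^(2-d)` of minus the Laplacian on `ℝ^d`. -/
def green (d : ℕ) (X : Fin d → ℝ) : ℝ :=
  Real.Gamma (d / 2 - 1) / (4 * Real.pi ^ (d / 2 : ℝ)) * (∑ i, X i ^ 2) ^ ((2 - d) / 2 : ℝ)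

/-- The component `k` of the codifferential `∑_j ∂_j f_{jk}` of the form `f`. -/
def codiff {N d : ℕ} (f : Fin d → Fin d → (Fin d → ℝ) → Mt N) (k : Fin d) (X : Fin d → ℝ) : Mt N :=
  ∑ j, fderiv ℝ (f j k) X (Pi.single j 1)

/-- The variance of `∫ ∑_{j<k} ⟨f_{jk}, F_{jk}⟩` for the free Maxwell field `F = dA`:
`∑_k ∫ ∫ ⟨(δf)_k (X), (δf)_k (Y)⟩ G(Y - X) dY dX`, `⟨Y, Z⟩ = Re tr (Y^* Z)`, `δ` being the
codifferential and `G` the Green function. -/
def maxwellVar {N d : ℕ} (f : Fin d → Fin d → (Fin d → ℝ) → Mt N) : ℝ :=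
  ∑ k, ∫ X : Fin d → ℝ, ∫ Y : Fin d → ℝ,
    (trace ((codiff f k X)ᴴ * codiff f k Y)).re * green d (Y - X)

open Pool.Agent.H906R3 Pool.Agent.W793 Pool.Agent.TH618 Pool.Agent

/-- A Haar probability measure is invariant under right multiplications. -/
lemma right_inv {H : Type*} [Group H] [TopologicalSpace H] [IsTopologicalGroup H]
    [CompactSpace H] [MeasurableSpace H] [BorelSpace H] (μ : Measure H)
    [IsProbabilityMeasure μ] [μ.IsHaarMeasure] : μ.IsMulRightInvariant := by
  refine ⟨fun g => ?_⟩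
  have h1 : IsProbabilityMeasure (Measure.map (fun x => x * g) μ) :=
    Measure.isProbabilityMeasure_map (measurable_mul_const g).aemeasurable
  exact Measure.isHaarMeasure_eq_of_isProbabilityMeasure _ _

/-- A Haar probability measure is invariant under the inversion. -/
lemma inv_inv' {H : Type*} [Group H] [TopologicalSpace H] [IsTopologicalGroup H]
    [CompactSpace H] [MeasurableSpace H] [BorelSpace H] (μ : Measure H)
    [IsProbabilityMeasure μ] [μ.IsHaarMeasure] : μ.IsInvInvariant := by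
  have hr := right_inv μ
  refine ⟨?_⟩
  have h1 : IsProbabilityMeasure μ.inv :=
    Measure.isProbabilityMeasure_map measurable_inv.aemeasurable
  have h2 : μ.inv.IsMulLeftInvariant := inferInstance
  have h3 : μ.inv.IsHaarMeasure :=
    Measure.isHaarMeasure_of_isCompact_nonempty_interior μ.inv Set.univ isCompact_univ
      (by simp) (by simp) (by simp)
  exact Measure.isHaarMeasure_eq_of_isProbabilityMeasure _ _

variable {N n d l : ℕ} {G : Subgroup (UU N)}

lemma lie_eq (B : YM.Frame G n) : lieAlg G = Submodule.span ℝ (Set.range B.X) := by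
  refine le_antisymm (Submodule.span_le.2 fun Y hY => B.full Y hY) (Submodule.span_le.2 ?_)
  rintro _ ⟨a, rfl⟩
  exact Submodule.subset_span fun t => ⟨B.ex a t, B.ex_eq a t⟩

lemma endpoint_eq (x : Fin d → ℤ) (p : List (Fin d × Bool)) : endpoint x p = YM.dest x p := by
  induction p generalizing x with
  | nil => rfl
  | cons s p ih =>
    obtain ⟨j, t⟩ := s
    cases t
    · exact ih _
    · exact ih _

lemma transport_eq (V : LinkZ d → G) (x : Fin d → ℤ) (p : List (Fin d × Bool)) :
    transport V x p = YM.hol V x p := by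
  induction p generalizing x with
  | nil => rfl
  | cons s p ih =>
    obtain ⟨j, t⟩ := s
    cases t
    · show (V (x - Pi.single j 1, j))⁻¹ * transport V (x - Pi.single j 1) p = _
      rw [ih]; rfl
    · show V (x, j) * transport V (x + Pi.single j 1) p = _
      rw [ih]; rfl

section bridge

variable [CompactSpace G] [SecondCountableTopology G] [MeasurableSpace G] [BorelSpace G]
  (μ : Measure G) [IsProbabilityMeasure μ] [μ.IsHaarMeasure] (B : YM.Frame G n)

lemma expect_eq [NeZero l] (β : ℝ) (F : (LinkZ d → G) → ℝ) : expect l μ β F =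
    YM.EX μ B.toLD β (fun U : YM.Ed d l → G => F (YM.lf U)) := by
  unfold expect YM.EX YM.Zt
  simp only [one_mul]
  rfl

include B in
lemma action_cont [NeZero l] : Continuous (action : (Link d l → G) → ℝ) :=
  YM.act_cont (L := B.toLD)

include B in
/-- existence of infinite volume limits -/
lemma exists_infVol (β : ℝ) : ∃ ν : Measure (LinkZ d → G), IsInfVol μ β ν := by
  have hP : ∀ j : ℕ, ∃ P : ProbabilityMeasure (LinkZ d → G),
      ∀ F : (LinkZ d → G) → ℝ, Continuous F →
        ∫ V, F V ∂(P : Measure (LinkZ d → G)) = expect (2 * (j + 1)) μ β F := by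
    intro j
    have hper : Continuous (per : (Link d (2 * (j + 1)) → G) → LinkZ d → G) :=
      continuous_pi fun e => continuous_apply _
    have hexp : Continuous fun U : Link d (2 * (j + 1)) → G =>
        Real.exp (-(β * action U)) :=
      Real.continuous_exp.comp (continuous_const.mul (action_cont B)).neg
    have hint : Integrable (fun U : Link d (2 * (j + 1)) → G =>
        Real.exp (-(β * action U))) (Measure.pi fun _ => μ) :=
      hexp.integrable_of_hasCompactSupport (HasCompactSupport.of_compactSpace _)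
    have h1 := isProbabilityMeasure_tilted (f := fun U : Link d (2 * (j + 1)) → G =>
      -(β * action U)) hint
    refine ⟨⟨((Measure.pi fun _ => μ).tilted fun U : Link d (2 * (j + 1)) → G =>
      -(β * action U)).map per, Measure.isProbabilityMeasure_map hper.aemeasurable⟩,
      fun F hF => ?_⟩
    show ∫ V, F V ∂(((Measure.pi fun _ => μ).tilted fun U : Link d (2 * (j + 1)) → G =>
      -(β * action U)).map per) = _
    rw [integral_map hper.aemeasurable hF.aestronglyMeasurable, integral_tilted]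
    unfold expect
    rw [← integral_div]
    refine integral_congr_ae (Filter.Eventually.of_forall fun U => ?_)
    simp only [smul_eq_mul]
    ring
  choose P hP using hP
  obtain ⟨ν, s, hs, hlim⟩ := CompactSpace.tendsto_subseq P
  refine ⟨ν, ⟨inferInstance, s, hs.tendsto_atTop, fun F hF => ?_⟩⟩
  have h1 := (ProbabilityMeasure.tendsto_iff_forall_integral_tendsto.1 hlim)
    (BoundedContinuousFunction.mkOfCompact ⟨F, hF⟩)
  simp only [Function.comp_apply, BoundedContinuousFunction.mkOfCompact_apply,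
    ContinuousMap.coe_mk] at h1
  simpa only [hP _ F hF] using h1

lemma plaqZ_lf (U : YM.Ed d l → G) (x : Fin d → ℤ) (i j : Fin d) :
    plaqZ (YM.lf U) x i j = YM.plqT U (YM.zt l x) i j := by
  unfold plaqZ YM.plqT
  rw [← YM.zt_add, ← YM.zt_add]
  rfl


lemma sum4 (S : Finset (Fin d → ℤ)) (T : Fin n → Fin d → Fin d → (Fin d → ℤ) → ℝ) :
    ∑ x ∈ S, ∑ j, ∑ k, ∑ c, T c j k x = ∑ c, ∑ j, ∑ k, ∑ x ∈ S, T c j k x := by
  rw [Finset.sum_comm]
  have h1 : ∀ j, ∑ x ∈ S, ∑ k, ∑ c, T c j k x = ∑ c, ∑ k, ∑ x ∈ S, T c j k x := by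
    intro j
    rw [Finset.sum_comm]
    have h2 : ∀ k, ∑ x ∈ S, ∑ c, T c j k x = ∑ c, ∑ x ∈ S, T c j k x := fun k =>
      Finset.sum_comm
    simp only [h2]
    exact Finset.sum_comm
  simp only [h1]
  exact Finset.sum_comm

/-- the smeared curvature as a finite sum -/
lemma smeared_eq {a β b R : ℝ} (ha : 0 < a) (hb : β = b ^ 4) (hR : 0 < R)
    (P : (Fin d → ℤ) → List (Fin d × Bool)) {f : Fin d → Fin d → (Fin d → ℝ) → Mt N}
    (hfL : ∀ j k X, f j k X ∈ Submodule.span ℝ (Set.range B.X))
    (hfR : ∀ c j k X, (∃ s, R < |X s|) → T2h94.comp B f c j k X = 0) (V : LinkZ d → G) :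
    smeared a β P f V = -(b ^ 2 * T2h94.Fc B.toLD (T2h94.Bx d (T2h94.rad R a))
      (T2h94.gsc a (T2h94.comp B f)) P V) := by
  have hs : Real.sqrt (β * a ^ d) = b ^ 2 * Real.sqrt (a ^ d) := by
    rw [hb, Real.sqrt_mul (by positivity)]
    congr 1
    rw [show b ^ 4 = (b ^ 2) ^ 2 by ring, Real.sqrt_sq (by positivity)]
  have h1 : ∀ (x : Fin d → ℤ) (j k : Fin d),
      (trace ((f j k fun s => a * (x s : ℝ))ᴴ * transported P V x j k)).re =
      ∑ c, T2h94.comp B f c j k (fun s => a * (x s : ℝ)) * -YM.fi B.toLD c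
        (YM.hol V 0 (P x) * T2h94.pz V x j k * (YM.hol V 0 (P x))⁻¹) := by
    intro x j k
    rw [← YM.ip_apply, T2h94.ip_frame B (hfL j k _)]
    refine Finset.sum_congr rfl fun c _ => ?_
    congr 1
    unfold transported YM.fi
    rw [transport_eq, YM.trX_apply, YM.ip_apply]
    have h2 : (B.X c)ᴴ = -B.X c := B.skewX c
    rw [h2, neg_mul, trace_neg, Complex.neg_re]
    rfl
  have h0 : ∀ x ∉ T2h94.Bx d (T2h94.rad R a), (∑ j, ∑ k,
      (trace ((f j k fun s => a * (x s : ℝ))ᴴ * transported P V x j k)).re) = 0 := by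
    intro x hx
    refine Finset.sum_eq_zero fun j _ => Finset.sum_eq_zero fun k _ => ?_
    rw [h1]
    refine Finset.sum_eq_zero fun c _ => ?_
    have h3 : T2h94.gsc a (T2h94.comp B f) c j k x = 0 := by
      by_contra h
      exact hx (T2h94.gsc_supp hR hfR ha c j k x h)
    unfold T2h94.gsc at h3
    have h4 : Real.sqrt (a ^ d) ≠ 0 := (Real.sqrt_pos.2 (pow_pos ha d)).ne'
    rw [(mul_eq_zero.1 h3).resolve_left h4, zero_mul]
  unfold smeared T2h94.Fc
  rw [tsum_eq_sum h0, hs]
  simp only [h1]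
  unfold T2h94.gsc
  obtain ⟨T, hT⟩ : ∃ T : Fin n → Fin d → Fin d → (Fin d → ℤ) → ℝ, T = fun c j k x =>
      T2h94.comp B f c j k (fun s => a * (x s : ℝ)) * YM.fi B.toLD c
        (YM.hol V 0 (P x) * T2h94.pz V x j k * (YM.hol V 0 (P x))⁻¹) := ⟨_, rfl⟩
  have e1 : ∀ (c : Fin n) (j k : Fin d) (x : Fin d → ℤ),
      T2h94.comp B f c j k (fun s => a * (x s : ℝ)) * -YM.fi B.toLD c
        (YM.hol V 0 (P x) * T2h94.pz V x j k * (YM.hol V 0 (P x))⁻¹) = -T c j k x :=
    fun c j k x => by rw [hT]; ring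
  have e2 : ∀ (c : Fin n) (j k : Fin d) (x : Fin d → ℤ), Real.sqrt (a ^ d) *
      T2h94.comp B f c j k (fun s => a * (x s : ℝ)) * YM.fi B.toLD c
        (YM.hol V 0 (P x) * T2h94.pz V x j k * (YM.hol V 0 (P x))⁻¹) =
      Real.sqrt (a ^ d) * T c j k x := fun c j k x => by rw [hT]; ring
  simp only [e1, e2, ← Finset.mul_sum, Finset.sum_neg_distrib]
  rw [sum4]
  ring

/-- the characteristic function in the infinite volume, from the ones on the tori -/
lemma char_bound {β : ℝ} {ν : Measure (LinkZ d → G)} (hν : IsInfVol μ β ν)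
    {S : (LinkZ d → G) → ℝ} (hS : Continuous S) {q e : ℝ} {M : ℕ}
    (h : ∀ (m : ℕ) [NeZero m], M < 2 * m →
      |expect (2 * m) μ β (fun V => Real.cos (S V)) - q| ≤ e ∧
      |expect (2 * m) μ β (fun V => Real.sin (S V))| ≤ e) :
    ‖∫ V, Complex.exp (Complex.I * (S V : ℂ)) ∂ν - (q : ℂ)‖ ≤ e + e := by
  obtain ⟨s, hs, hlim⟩ := hν.lim
  have := hν.prob
  have hM : ∀ᶠ j in atTop, M < 2 * (s j + 1) := by
    filter_upwards [hs.eventually (eventually_gt_atTop M)] with j hj
    omega
  have h1 : |∫ V, Real.cos (S V) ∂ν - q| ≤ e := by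
    refine le_of_tendsto ((hlim _ (Real.continuous_cos.comp hS)).sub_const q).abs ?_
    filter_upwards [hM] with j hj
    exact (h (s j + 1) hj).1
  have h2 : |∫ V, Real.sin (S V) ∂ν| ≤ e := by
    refine le_of_tendsto (hlim _ (Real.continuous_sin.comp hS)).abs ?_
    filter_upwards [hM] with j hj
    exact (h (s j + 1) hj).2
  have hint : ∀ H : (LinkZ d → G) → ℝ, Continuous H → Integrable H ν := fun H hH =>
    hH.integrable_of_hasCompactSupport (HasCompactSupport.of_compactSpace _)
  have h3 : ∫ V, Complex.exp (Complex.I * (S V : ℂ)) ∂ν =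
      ((∫ V, Real.cos (S V) ∂ν : ℝ) : ℂ) + ((∫ V, Real.sin (S V) ∂ν : ℝ) : ℂ) * Complex.I := by
    have e1 : ∀ V, Complex.exp (Complex.I * (S V : ℂ)) =
        ((Real.cos (S V) : ℝ) : ℂ) + ((Real.sin (S V) : ℝ) : ℂ) * Complex.I := by
      intro V
      rw [mul_comm, Complex.exp_mul_I, Complex.ofReal_cos, Complex.ofReal_sin]
    simp only [e1]
    rw [integral_add ((hint _ (Real.continuous_cos.comp hS)).ofReal)
      ((hint _ (Real.continuous_sin.comp hS)).ofReal.mul_const _), integral_mul_const,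
      integral_complex_ofReal, integral_complex_ofReal]
  rw [h3]
  have h4 : ((∫ V, Real.cos (S V) ∂ν : ℝ) : ℂ) + ((∫ V, Real.sin (S V) ∂ν : ℝ) : ℂ) * Complex.I -
      (q : ℂ) = (((∫ V, Real.cos (S V) ∂ν) - q : ℝ) : ℂ) +
      ((∫ V, Real.sin (S V) ∂ν : ℝ) : ℂ) * Complex.I := by
    push_cast
    ring
  rw [h4]
  refine (norm_add_le _ _).trans (add_le_add ?_ ?_)
  · rw [Complex.norm_real]; exact h1
  · rw [norm_mul, Complex.norm_I, mul_one, Complex.norm_real]; exact h2

end bridge

/-- In dimension `d ≥ 3`, for every closed subgroup `G` of `U(N)`, for all lattice spacings `a_i → 0`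
and inverse couplings `β_i ≥ a_i ^ (-(60 d + 88))`, all infinite volume limits `ν_i` of the lattice
Yang-Mills theories at `β_i`, all lattice paths `P_i x` from the origin to `x` of lengths at most
`C (1 / a_i + |x|_1)` and all continuously differentiable test two-forms `f` of compact support with
values in the Lie algebra of `G`: the curvature, transported to the origin along `P_i` and smeared
with `f`, converges in law to the free Maxwell field with values in the Lie algebra smeared with `f`,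
the Gaussian variable of variance `maxwellVar f`. (As `f` is any form, so do the joint laws for
several forms.) -/
theorem result {N d : ℕ} (hd : 3 ≤ d) (G : Subgroup (UU N))
    (hG : IsClosed (G : Set (UU N))) [MeasurableSpace G] [BorelSpace G]
    (μ : Measure G) [IsProbabilityMeasure μ] [μ.IsHaarMeasure] :
    (∀ β : ℝ, ∃ ν : Measure (LinkZ d → G), IsInfVol μ β ν) ∧
    ∀ a β : ℕ → ℝ, (∀ i, 0 < a i) → Tendsto a atTop (𝓝 0) →
      (∀ᶠ i in atTop, 1 ≤ β i * a i ^ (60 * d + 88)) →
      ∀ ν : ℕ → Measure (LinkZ d → G), (∀ i, IsInfVol μ (β i) (ν i)) →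
      ∀ (P : ℕ → (Fin d → ℤ) → List (Fin d × Bool)) (C : ℝ), (∀ i x, endpoint 0 (P i x) = x) →
        (∀ i x, ((P i x).length : ℝ) ≤ C * (1 / a i + ∑ s, |(x s : ℝ)|)) →
      ∀ f : Fin d → Fin d → (Fin d → ℝ) → Mt N, (∀ j k, ContDiff ℝ 1 (f j k)) →
        (∀ j k, HasCompactSupport (f j k)) → (∀ j k X, f k j X = -f j k X) →
        (∀ j k X, f j k X ∈ lieAlg G) →
        Tendsto (fun i => ∫ V, Complex.exp (Complex.I * (smeared (a i) (β i) (P i) f V : ℂ)) ∂(ν i))
          atTop (𝓝 (Real.exp (-(maxwellVar f / 2)) : ℂ)) := by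
  have : CompactSpace G := by
    have h1 : IsCompact (G : Set (UU N)) := hG.isCompact
    exact isCompact_iff_compactSpace.1 h1
  have h00 : SecondCountableTopology (UU N) := TopologicalSpace.Subtype.secondCountableTopology _
  have : SecondCountableTopology G := TopologicalSpace.Subtype.secondCountableTopology _
  have := right_inv μ
  have := inv_inv' μ
  obtain ⟨n, ⟨B⟩⟩ := YM.exists_frame hG
  refine ⟨fun β => exists_infVol μ B β, fun a β ha ha0 hβ ν hν P C hP1 hP2 f hf1 hfs hfa hfL => ?_⟩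
  rw [lie_eq B] at hfL
  obtain ⟨g, hg⟩ : ∃ g, g = T2h94.comp B f := ⟨_, rfl⟩
  have hg1 : ∀ c j k, ContDiff ℝ 1 (g c j k) := by rw [hg]; exact T2h94.comp_smooth B hf1
  have hgs : ∀ c j k, HasCompactSupport (g c j k) := by rw [hg]; exact T2h94.comp_supp B hfs
  have hga : ∀ c j k X, g c j k X = -g c k j X := by rw [hg]; exact T2h94.comp_asy B hfa
  obtain ⟨R, M, hR, hM, hgR, hgM⟩ := T2h94.supp_cube hg1 hgs
  obtain ⟨q, hq⟩ : ∃ q, q = 15 * d + 22 := ⟨_, rfl⟩
  -- the couplings
  obtain ⟨b, hb⟩ : ∃ b : ℕ → ℝ, b = fun i => β i ^ (((4 : ℕ) : ℝ)⁻¹) := ⟨_, rfl⟩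
  have hbβ : ∀ᶠ i in atTop, (1 ≤ b i ∧ 1 ≤ b i * a i ^ (15 * d + 22)) ∧ β i = b i ^ 4 := by
    filter_upwards [hβ, ha0.eventually (ge_mem_nhds one_pos)] with i h1 h2
    have hai := ha i
    have hβ0 : 0 < β i := by
      by_contra h
      push Not at h
      have : β i * a i ^ (60 * d + 88) ≤ 0 := mul_nonpos_of_nonpos_of_nonneg h (by positivity)
      linarith
    have h3 : b i ^ 4 = β i := by
      rw [hb]; exact Real.rpow_inv_natCast_pow hβ0.le (by norm_num)
    have hb0 : 0 < b i := by rw [hb]; exact Real.rpow_pos_of_pos hβ0 _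
    have h4 : 1 ≤ b i * a i ^ (15 * d + 22) := by
      by_contra h
      push Not at h
      have h5 := pow_lt_one₀ (by positivity) h (show (4 : ℕ) ≠ 0 by norm_num)
      have h6 : (b i * a i ^ (15 * d + 22)) ^ 4 = β i * a i ^ (60 * d + 88) := by
        rw [mul_pow, h3, ← pow_mul]
        congr 2
        ring
      rw [h6] at h5
      linarith
    refine ⟨⟨?_, h4⟩, h3.symm⟩
    have h7 : a i ^ (15 * d + 22) ≤ 1 := pow_le_one₀ hai.le h2
    nlinarith [pow_pos hai (15 * d + 22)]
  -- the variance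
  have hinv : Tendsto (fun i => (a i)⁻¹) atTop atTop :=
    (tendsto_nhdsWithin_iff.2 ⟨ha0, Eventually.of_forall fun i => ha i⟩).inv_tendsto_nhdsGT_zero
  have hKa : Tendsto (fun i => ((⌈1 / a i⌉₊ ^ 7 : ℕ) : ℝ) * a i ^ 2) atTop atTop := by
    refine tendsto_atTop_mono' atTop ?_ hinv
    filter_upwards [ha0.eventually (ge_mem_nhds one_pos)] with i h2
    have hai := ha i
    have h1 : (1 / a i) ^ 7 ≤ ((⌈1 / a i⌉₊ ^ 7 : ℕ) : ℝ) := by
      push_cast
      exact pow_le_pow_left₀ (by positivity) (Nat.le_ceil _) _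
    have h3 : 1 ≤ 1 / a i := by rw [le_div_iff₀ hai]; linarith
    calc (a i)⁻¹ = (1 / a i) ^ 3 * a i ^ 2 := by field_simp
      _ ≤ (1 / a i) ^ 7 * a i ^ 2 :=
          mul_le_mul_of_nonneg_right (pow_le_pow_right₀ h3 (by norm_num)) (by positivity)
      _ ≤ _ := mul_le_mul_of_nonneg_right h1 (by positivity)
  have hQ := T2h94.var_lim hd hg1 hgs hR hgR ha ha0 hKa
  have hvar : maxwellVar f = ∑ c, ∑ k, ∫ X : Fin d → ℝ, ∫ Y : Fin d → ℝ,
      T2h94.cod (g c) k X * T2h94.cod (g c) k Y * T2h94.Gr d (Y - X) := by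
    have hint := T2h94.cod_int hd hg1 hgR
    rw [hg] at hint ⊢
    exact T2h94.var_comp B hf1 hfL hint
  rw [← hvar] at hQ
  obtain ⟨e, he, hlaw⟩ := T2h94.law_lim μ (L := B.toLD) hd hga hR hM hgR hgM ha ha0
    (hbβ.mono fun i h => h.1) (P := P) (fun i x => by rw [← endpoint_eq]; exact hP1 i x) hP2 hQ
  have hlim : ∀ᶠ i in atTop, ‖∫ V, Complex.exp (Complex.I *
      (smeared (a i) (β i) (P i) f V : ℂ)) ∂(ν i) - (Real.exp (-(maxwellVar f / 2)) : ℂ)‖ ≤
      e i + e i := by
    filter_upwards [hbβ, hlaw] with i h1 h2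
    obtain ⟨_, hb4⟩ := h1
    obtain ⟨S, hS⟩ : ∃ S : (LinkZ d → G) → ℝ, S = fun V => b i ^ 2 * T2h94.Fc B.toLD
      (T2h94.Bx d (T2h94.rad R (a i))) (T2h94.gsc (a i) g) (P i) V := ⟨_, rfl⟩
    have hSc : Continuous S := by rw [hS]; exact continuous_const.mul (T2h94.Fc_cont _ _ _)
    have hsm : ∀ V, smeared (a i) (β i) (P i) f V = -S V := fun V => by
      rw [smeared_eq B (ha i) hb4 hR (P i) hfL (by rw [← hg]; exact hgR) V, hS, hg]
    have h3 : (fun V : LinkZ d → G => smeared (a i) (β i) (P i) f V) = fun V => -S V := by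
      funext V; exact hsm V
    refine char_bound μ (hν i) (S := fun V => smeared (a i) (β i) (P i) f V)
      (by rw [h3]; exact hSc.neg) (M := 3 * (⌈1 / a i⌉₊ ^ 7) + 5) fun m _ hm => ?_
    obtain ⟨h4, h5⟩ := h2 m hm
    simp only [hsm, Real.cos_neg, Real.sin_neg]
    rw [expect_eq μ B, expect_eq μ B, hb4]
    rw [hS]
    refine ⟨h4, ?_⟩
    have h6 := YM.EX_smul μ (L := B.toLD) (β := b i ^ 4) (-1) (fun U : YM.Ed d (2 * m) → G =>
      Real.sin (b i ^ 2 * T2h94.Fc B.toLD (T2h94.Bx d (T2h94.rad R (a i)))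
        (T2h94.gsc (a i) g) (P i) (YM.lf U)))
    simp only [neg_one_mul] at h6
    rw [h6, abs_neg]
    exact h5
  rw [tendsto_iff_norm_sub_tendsto_zero]
  refine squeeze_zero' (Eventually.of_forall fun i => norm_nonneg _) hlim ?_
  simpa using he.add he

end

end Pool.Agent.Results.MP_7f377f_mp.B_CurvatureInLaw
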