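import Mathlib
import Pool.Agent.H906R3.YM.Conc
import Pool.Agent.W793.YM.Inf
import Pool.Agent.TH618.YM.Cartan
import Pool.Agent.T2h94.W10

/-!
# Lattice Yang-Mills theory: the scaling limit of all gauge invariant local fields at weak coupling

Wilson's lattice gauge theory in dimension `d ≥ 3` with gauge group a closed subgroup `G` of `U(N)`,
in the infinite volume, with the lattice spacing `a_i → 0` and with inverse couplings
`β_i ≥ a_i ^ (-p)`, `p` explicit. All gauge invariant local polynomials in the curvature and its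
covariant derivatives, in the canonical normalisation of the continuum and Wick ordered, have
`r` point functions at different points of `ℝ^d` which converge to those of the corresponding Wick
polynomials of `dim G` independent free Maxwell fields.
-/

open MeasureTheory Matrix Filter
open scoped Matrix.Norms.Frobenius Topology ContDiff

namespace Pool.Agent.Results.MP_7f377f_mp.C_LocalFields

set_option linter.unusedSectionVars false

noncomputable section

/-- Complex `N × N` matrices. -/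
abbrev Mt (N : ℕ) := Matrix (Fin N) (Fin N) ℂ

/-- The unitary group `U(N)`. -/
abbrev UU (N : ℕ) := Matrix.unitaryGroup (Fin N) ℂ

/-- The matrix of an element of a subgroup of `U(N)`. -/
def mt {N : ℕ} {G : Subgroup (UU N)} (g : G) : Mt N := ((g : UU N) : Mt N)

/-- Links of the periodic lattice `(ℤ/l)^d`: base point and direction. -/
abbrev Link (d l : ℕ) := (Fin d → ZMod l) × Fin d

/-- Links of the lattice `ℤ^d`: base point and direction. -/
abbrev LinkZ (d : ℕ) := (Fin d → ℤ) × Fin d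

section

variable {N n d l : ℕ} {G : Subgroup (UU N)}

/-- The product of the link variables around the plaquette at `x` in the directions `i`, `j`. -/
def plaq (U : Link d l → G) (x : Fin d → ZMod l) (i j : Fin d) : G :=
  U (x, i) * U (x + Pi.single i 1, j) * (U (x + Pi.single j 1, i))⁻¹ * (U (x, j))⁻¹

/-- The Wilson action `∑_p Re tr (1 - U_p)`, the sum over the plaquettes. -/
def action [NeZero l] (U : Link d l → G) : ℝ :=
  ∑ x : Fin d → ZMod l, ∑ i : Fin d, ∑ j : Fin d,
    if i < j then (trace (1 - mt (plaq U x i j))).re else 0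

/-- The periodic extension of a configuration. -/
def per (U : Link d l → G) : LinkZ d → G := fun e => U (fun i => (e.1 i : ZMod l), e.2)

/-- The expectation of `F` in the lattice Yang-Mills theory on `(ℤ/l)^d`, `μ` being the Haar
measure. -/
def expect (l : ℕ) [NeZero l] [MeasurableSpace G] (μ : Measure G) (β : ℝ)
    (F : (LinkZ d → G) → ℝ) : ℝ :=
  (∫ U : Link d l → G, F (per U) * Real.exp (-(β * action U)) ∂(Measure.pi fun _ => μ)) /
    ∫ U : Link d l → G, Real.exp (-(β * action U)) ∂(Measure.pi fun _ => μ)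

/-- `ν` is an infinite volume limit (weak limit along a subsequence) of the theories on the tori of
even side at inverse coupling `β`. -/
structure IsInfVol [MeasurableSpace G] (μ : Measure G) (β : ℝ)
    (ν : Measure (LinkZ d → G)) : Prop where
  prob : IsProbabilityMeasure ν
  lim : ∃ s : ℕ → ℕ, Tendsto s atTop atTop ∧ ∀ F : (LinkZ d → G) → ℝ, Continuous F →
    Tendsto (fun j => expect (2 * (s j + 1)) μ β F) atTop (𝓝 (∫ V, F V ∂ν))

/-- The product of the link variables around the plaquette of `ℤ^d` at `x` in the directions `i`,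
`j`. -/
def plaqZ (V : LinkZ d → G) (x : Fin d → ℤ) (i j : Fin d) : G :=
  V (x, i) * V (x + Pi.single i 1, j) * (V (x + Pi.single j 1, i))⁻¹ * (V (x, j))⁻¹

/-- The lattice curvature `F_{ij}(x)`: the antihermitian part `(U_p - U_p^*)/2` of the plaquette
`p` at `x` in the directions `p = (i, j)`. -/
def curv (V : LinkZ d → G) (x : Fin d → ℤ) (p : Fin d × Fin d) : Mt N :=
  (1 / 2 : ℝ) • (mt (plaqZ V x p.1 p.2) - (mt (plaqZ V x p.1 p.2))ᴴ)

/-- The lattice covariant derivatives of the curvature: `covD V p [k_1, …, k_j] x` is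
`∇_{k_1} ⋯ ∇_{k_j} F_p (x)`, where `(∇_k Φ)(x) = V(x, k) Φ(x + e_k) V(x, k)^* - Φ(x)` is the
covariant difference, i.e. the difference after the parallel transport along the link `(x, k)`. -/
def covD (V : LinkZ d → G) (p : Fin d × Fin d) : List (Fin d) → (Fin d → ℤ) → Mt N
  | [], x => curv V x p
  | k :: m, x => mt (V (x, k)) * covD V p m (x + Pi.single k 1) * (mt (V (x, k)))ᴴ - covD V p m x

/-- The directions `((j, k), [l_1, l_2, …])` of a covariant derivative
`∇_{l_1} ∇_{l_2} ⋯ F_{jk}` of the curvature. -/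
abbrev Slot (d : ℕ) := (Fin d × Fin d) × List (Fin d)

/-- `X_1, …, X_n` is a basis of the Lie algebra of `G`, i.e. of the space of all matrices `Y` with
`exp (t Y) ∈ G` for all real `t`, orthonormal for the scalar product `Re tr (Y^* Y')`. -/
structure IsLieBasis (G : Subgroup (UU N)) (X : Fin n → Mt N) : Prop where
  exp_mem : ∀ a (t : ℝ), ∃ g : G, mt g = NormedSpace.exp (t • X a)
  orth : ∀ a b, (trace ((X a)ᴴ * X b)).re = if a = b then 1 else 0
  full : ∀ Y : Mt N, (∀ t : ℝ, ∃ g : G, mt g = NormedSpace.exp (t • Y)) →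
    Y ∈ Submodule.span ℝ (Set.range X)

/-- The multilinear form `P` is, on the Lie algebra of `G`, invariant under the conjugation with
the elements of `G`. -/
def IsInvariant (G : Subgroup (UU N)) {k : ℕ} (P : MultilinearMap ℝ (fun _ : Fin k => Mt N) ℝ) :
    Prop :=
  ∀ (g : G) (M : Fin k → Mt N), (∀ i (t : ℝ), ∃ h : G, mt h = NormedSpace.exp (t • M i)) →
    P (fun i => mt g * M i * (mt g)ᴴ) = P M

/-- The component of colour `c` of the covariant derivative `D = (p, m)` of the curvature at `x`, in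
the normalisation of the continuum: `√(β / a^d) a^(-|m|) Re tr (X_c^* ∇_m F_p (x))`. -/
def comp (a β : ℝ) (X : Fin n → Mt N) (V : LinkZ d → G) (x : Fin d → ℤ) (D : Slot d)
    (c : Fin n) : ℝ :=
  Real.sqrt (β / a ^ d) * (a ^ D.2.length)⁻¹ * (trace ((X c)ᴴ * covD V D.1 D.2 x)).re

/-- The covariance at one point of the components of one colour of two covariant derivatives of the
curvature, averaged over the colours. -/
def selfCov [MeasurableSpace G] (a β : ℝ) (X : Fin n → Mt N) (ν : Measure (LinkZ d → G))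
    (x : Fin d → ℤ) (D E : Slot d) : ℝ :=
  (n : ℝ)⁻¹ * ∑ c, ∫ V, comp a β X V x D c * comp a β X V x E c ∂ν

end

/-- The sum over all pairings of the finite set `S` of the products over the pairs `i < j` of
`C i j`, defined recursively: the least element is paired with each of the other ones. -/
def pairings {ι : Type*} [LinearOrder ι] (C : ι → ι → ℝ) (S : Finset ι) : ℝ :=
  if h : S.Nonempty then
    ∑ t ∈ (S.erase (S.min' h)).attach,
      C (S.min' h) t * pairings C ((S.erase (S.min' h)).erase t)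
  else 1
termination_by S.card
decreasing_by
  exact lt_of_le_of_lt (Finset.card_le_card (Finset.erase_subset _ _))
    (Finset.card_erase_lt_of_mem (Finset.min'_mem S h))

/-- The Wick product `:φ_1 ⋯ φ_k:` with respect to the covariance `C`: the sum over the subsets `T`
of the product of the `φ_i`, `i ∈ T`, times the sum over the pairings of the complement of `T` for
the covariance `-C`. -/
def wickProd {k : ℕ} (C : Fin k → Fin k → ℝ) (φ : Fin k → ℝ) : ℝ :=
  ∑ T : Finset (Fin k), pairings (fun i j => -C i j) Tᶜ * ∏ i ∈ T, φ i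

section

variable {N n d : ℕ} {G : Subgroup (UU N)}

/-- The local field `:P(∇_{m_1} F_{p_1}, …, ∇_{m_k} F_{p_k}): (x)` with `D i = (p_i, m_i)`, in the
normalisation of the continuum and with the self contractions subtracted:
`∑_{c_1, …, c_k} P(X_{c_1}, …, X_{c_k}) :φ^{c_1}_1 ⋯ φ^{c_k}_k:` where `φ^c_i` is the component of
colour `c` of `∇_{m_i} F_{p_i} (x)`. -/
def localField [MeasurableSpace G] (a β : ℝ) (X : Fin n → Mt N) (ν : Measure (LinkZ d → G)) {k : ℕ}
    (P : MultilinearMap ℝ (fun _ : Fin k => Mt N) ℝ) (D : Fin k → Slot d) (x : Fin d → ℤ)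
    (V : LinkZ d → G) : ℝ :=
  ∑ c : Fin k → Fin n, P (fun i => X (c i)) *
    wickProd (fun i j => if c i = c j then selfCov a β X ν x (D i) (D j) else 0)
      fun i => comp a β X V x (D i) (c i)

end

/-- The Green function `G(X) = Γ(d/2 - 1) / (4 π^(d/2)) |X|^(2-d)` of minus the Laplacian on
`ℝ^d`. -/
def green (d : ℕ) (X : Fin d → ℝ) : ℝ :=
  Real.Gamma (d / 2 - 1) / (4 * Real.pi ^ (d / 2 : ℝ)) * (∑ i, X i ^ 2) ^ ((2 - d) / 2 : ℝ)

/-- Iterated partial derivatives: `partials f [l_1, …, l_j] X` is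
`∂_{l_1} ⋯ ∂_{l_j} f (X)`. -/
def partials {d : ℕ} (f : (Fin d → ℝ) → ℝ) : List (Fin d) → (Fin d → ℝ) → ℝ
  | [], X => f X
  | l :: m, X => fderiv ℝ (partials f m) X (Pi.single l 1)

/-- The covariance of `∂_m F_{jk}(0)` and `∂_{m'} F_{lh}(X)`, with `D = ((j, k), m)` and
`E = ((l, h), m')`, in the free Maxwell field on `ℝ^d` with the action `(1/4) ∫ ∑_{jk} F_{jk}^2`:
`F_{jk} = ∂_j A_k - ∂_k A_j` with `⟨A_k(0) A_h(X)⟩ = δ_{kh} G(X)`, so that
`⟨∂_m ∂_j A_k(0) ∂_{m'} ∂_l A_h(X)⟩ = (-1)^(|m|+1) δ_{kh} ∂_{m'} ∂_m ∂_l ∂_j G(X)`. -/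
def maxwell {d : ℕ} (D E : Slot d) (X : Fin d → ℝ) : ℝ :=
  (if E.1.2 = D.1.2 then
      (-1) ^ (D.2.length + 1) * partials (green d) (E.2 ++ D.2 ++ [E.1.1, D.1.1]) X else 0) -
    (if E.1.2 = D.1.1 then
      (-1) ^ (D.2.length + 1) * partials (green d) (E.2 ++ D.2 ++ [E.1.1, D.1.2]) X else 0) -
    (if E.1.1 = D.1.2 then
      (-1) ^ (D.2.length + 1) * partials (green d) (E.2 ++ D.2 ++ [E.1.2, D.1.1]) X else 0) +
    (if E.1.1 = D.1.1 then
      (-1) ^ (D.2.length + 1) * partials (green d) (E.2 ++ D.2 ++ [E.1.2, D.1.2]) X else 0)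

/-- The legs of `r` vertices, `k s` legs at the vertex `s`. -/
abbrev Leg {r : ℕ} (k : Fin r → ℕ) := Σₗ s : Fin r, Fin (k s)

/-- The covariance of two legs with the directions `D` and the colours `c`, the vertex `s` being at
`x_s ∈ ℝ^d`: Maxwell's covariance if the vertices are different and the colours are the same, and
otherwise `0`. -/
def legCov {n d r : ℕ} {k : Fin r → ℕ} (D : (s : Fin r) → Fin (k s) → Slot d)
    (x : Fin r → Fin d → ℝ) (c : (s : Fin r) → Fin (k s) → Fin n) (i j : Leg k) : ℝ :=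
  if (ofLex i).1 = (ofLex j).1 then 0 else
    if c (ofLex i).1 (ofLex i).2 = c (ofLex j).1 (ofLex j).2 then
      maxwell (D (ofLex i).1 (ofLex i).2) (D (ofLex j).1 (ofLex j).2)
        (x (ofLex j).1 - x (ofLex i).1) else 0

/-- The `r` point function of the Wick polynomials
`∑_{c_1, …, c_k} P_s(X_{c_1}, …, X_{c_k}) :∂_{m_1} F^{c_1}_{p_1} ⋯ ∂_{m_k} F^{c_k}_{p_k}: (x_s)`,
`D s i = (p_i, m_i)`, of the curvatures `F^1, …, F^n` of `n` independent free Maxwell fields on
`ℝ^d` (Wick's theorem: no pairings within a vertex). -/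
def maxwellCorr {N n d r : ℕ} {k : Fin r → ℕ} (X : Fin n → Mt N)
    (P : (s : Fin r) → MultilinearMap ℝ (fun _ : Fin (k s) => Mt N) ℝ)
    (D : (s : Fin r) → Fin (k s) → Slot d) (x : Fin r → Fin d → ℝ) : ℝ :=
  ∑ c : (s : Fin r) → Fin (k s) → Fin n, (∏ s, P s fun i => X (c s i)) *
    pairings (legCov D x c) Finset.univ

/-- The power of the lattice spacing, `κ` being the number of the factors `∇_m F_p` and `δ` the
number of the derivatives in all the fields together. -/
def power (d κ δ : ℕ) : ℕ := (4 * d * κ + 16 * d + 13) * (d * κ + 2 * δ + 1) + 1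

open Pool.Agent.H906R3 Pool.Agent.W793 Pool.Agent.TH618 Pool.Agent

/-- A Haar probability measure is invariant under right multiplications. -/
lemma right_inv {H : Type*} [Group H] [TopologicalSpace H] [IsTopologicalGroup H]
    [CompactSpace H] [MeasurableSpace H] [BorelSpace H] (μ : Measure H)
    [IsProbabilityMeasure μ] [μ.IsHaarMeasure] : μ.IsMulRightInvariant := by
  refine ⟨fun g => ?_⟩
  have h1 : IsProbabilityMeasure (Measure.map (fun x => x * g) μ) :=
    Measure.isProbabilityMeasure_map (measurable_mul_const g).aemeasurable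
  exact Measure.isHaarMeasure_eq_of_isProbabilityMeasure _ _

/-- A Haar probability measure is invariant under the inversion. -/
lemma inv_inv' {H : Type*} [Group H] [TopologicalSpace H] [IsTopologicalGroup H]
    [CompactSpace H] [MeasurableSpace H] [BorelSpace H] (μ : Measure H)
    [IsProbabilityMeasure μ] [μ.IsHaarMeasure] : μ.IsInvInvariant := by
  have hr := right_inv μ
  refine ⟨?_⟩
  have h1 : IsProbabilityMeasure μ.inv :=
    Measure.isProbabilityMeasure_map measurable_inv.aemeasurable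
  have h2 : μ.inv.IsMulLeftInvariant := inferInstance
  have h3 : μ.inv.IsHaarMeasure :=
    Measure.isHaarMeasure_of_isCompact_nonempty_interior μ.inv Set.univ isCompact_univ
      (by simp) (by simp) (by simp)
  exact Measure.isHaarMeasure_eq_of_isProbabilityMeasure _ _

lemma pairings_eq {ι : Type*} [LinearOrder ι] (C : ι → ι → ℝ) (S : Finset ι) :
    pairings C S = T2h94.wick C S := by
  induction S using T2h94.wick_ind with
  | h0 => rw [T2h94.wick_empty, pairings, dif_neg (by simp)]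
  | h1 S m hm hmin ih =>
    have h : S.Nonempty := ⟨m, hm⟩
    rw [T2h94.wick_rec C h, pairings, dif_pos h]
    rw [Finset.sum_attach (S.erase (S.min' h))
      (fun t => C (S.min' h) t * pairings C ((S.erase (S.min' h)).erase t))]
    refine Finset.sum_congr rfl fun t _ => ?_
    rw [ih _ (T2h94.erase_ssub (Finset.min'_mem _ _) t)]

variable {N n d l : ℕ} {G : Subgroup (UU N)}

section bridge

variable [CompactSpace G] [SecondCountableTopology G] [MeasurableSpace G] [BorelSpace G]
  (μ : Measure G) [IsProbabilityMeasure μ] [μ.IsHaarMeasure] (B : YM.Frame G n)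

lemma expect_eq [NeZero l] (β : ℝ) (F : (LinkZ d → G) → ℝ) : expect l μ β F =
    YM.EX μ B.toLD β (fun U : YM.Ed d l → G => F (YM.lf U)) := by
  unfold expect YM.EX YM.Zt
  simp only [one_mul]
  rfl

include B in
lemma action_cont [NeZero l] : Continuous (action : (Link d l → G) → ℝ) :=
  YM.act_cont (L := B.toLD)

include B in
/-- existence of infinite volume limits -/
lemma exists_infVol (β : ℝ) : ∃ ν : Measure (LinkZ d → G), IsInfVol μ β ν := by
  have hP : ∀ j : ℕ, ∃ P : ProbabilityMeasure (LinkZ d → G),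
      ∀ F : (LinkZ d → G) → ℝ, Continuous F →
        ∫ V, F V ∂(P : Measure (LinkZ d → G)) = expect (2 * (j + 1)) μ β F := by
    intro j
    have hper : Continuous (per : (Link d (2 * (j + 1)) → G) → LinkZ d → G) :=
      continuous_pi fun e => continuous_apply _
    have hexp : Continuous fun U : Link d (2 * (j + 1)) → G =>
        Real.exp (-(β * action U)) :=
      Real.continuous_exp.comp (continuous_const.mul (action_cont B)).neg
    have hint : Integrable (fun U : Link d (2 * (j + 1)) → G =>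
        Real.exp (-(β * action U))) (Measure.pi fun _ => μ) :=
      hexp.integrable_of_hasCompactSupport (HasCompactSupport.of_compactSpace _)
    have h1 := isProbabilityMeasure_tilted (f := fun U : Link d (2 * (j + 1)) → G =>
      -(β * action U)) hint
    refine ⟨⟨((Measure.pi fun _ => μ).tilted fun U : Link d (2 * (j + 1)) → G =>
      -(β * action U)).map per, Measure.isProbabilityMeasure_map hper.aemeasurable⟩,
      fun F hF => ?_⟩
    show ∫ V, F V ∂(((Measure.pi fun _ => μ).tilted fun U : Link d (2 * (j + 1)) → G =>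
      -(β * action U)).map per) = _
    rw [integral_map hper.aemeasurable hF.aestronglyMeasurable, integral_tilted]
    unfold expect
    rw [← integral_div]
    refine integral_congr_ae (Filter.Eventually.of_forall fun U => ?_)
    simp only [smul_eq_mul]
    ring
  choose P hP using hP
  obtain ⟨ν, s, hs, hlim⟩ := CompactSpace.tendsto_subseq P
  refine ⟨ν, ⟨inferInstance, s, hs.tendsto_atTop, fun F hF => ?_⟩⟩
  have h1 := (ProbabilityMeasure.tendsto_iff_forall_integral_tendsto.1 hlim)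
    (BoundedContinuousFunction.mkOfCompact ⟨F, hF⟩)
  simp only [Function.comp_apply, BoundedContinuousFunction.mkOfCompact_apply,
    ContinuousMap.coe_mk] at h1
  simpa only [hP _ F hF] using h1

lemma plaqZ_lf (U : YM.Ed d l → G) (x : Fin d → ℤ) (i j : Fin d) :
    plaqZ (YM.lf U) x i j = YM.plqT U (YM.zt l x) i j := by
  unfold plaqZ YM.plqT
  rw [← YM.zt_add, ← YM.zt_add]
  rfl

lemma curv_lf (U : YM.Ed d l → G) (x : Fin d → ℤ) (p : Fin d × Fin d) :
    curv (YM.lf U) x p = T2h94.asm B.toLD (YM.plqT U (YM.zt l x) p.1 p.2) := by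
  unfold curv
  rw [plaqZ_lf]
  rfl

lemma mt_lf (U : YM.Ed d l → G) (x : Fin d → ℤ) (k : Fin d) :
    mt (YM.lf U (x, k)) = B.toLD.rho (U (YM.zt l x, k)) := rfl

lemma covD_lf [NeZero l] (U : YM.Ed d l → G) (p : Fin d × Fin d) (m : List (Fin d))
    (x : Fin d → ℤ) : covD (YM.lf U) p m x =
      (1 / 2 : ℝ) • (T2h94.cvT B.toLD U p m (YM.zt l x) -
        (T2h94.cvT B.toLD U p m (YM.zt l x))ᴴ) := by
  induction m generalizing x with
  | nil => exact curv_lf B U x p
  | cons k m ih =>
    show mt (YM.lf U (x, k)) * covD (YM.lf U) p m (x + Pi.single k 1) * (mt (YM.lf U (x, k)))ᴴ -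
      covD (YM.lf U) p m x = _
    have e : T2h94.cvT B.toLD U p (k :: m) (YM.zt l x) =
        B.toLD.rho (U (YM.zt l x, k)) * T2h94.cvT B.toLD U p m (YM.zt l x + YM.eT k) *
        (B.toLD.rho (U (YM.zt l x, k)))ᴴ - T2h94.cvT B.toLD U p m (YM.zt l x) := rfl
    rw [ih, ih, e, mt_lf B, YM.zt_add]
    simp only [conjTranspose_sub, conjTranspose_mul, conjTranspose_conjTranspose, mul_smul_comm,
      smul_mul_assoc, mul_sub, sub_mul, smul_sub, mul_assoc]
    abel

lemma comp_lf [NeZero l] {a β b : ℝ} (ha : 0 < a) (hb : β = b ^ 4) (U : YM.Ed d l → G)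
    (x : Fin d → ℤ) (D : Slot d) (c : Fin n) : comp a β B.X (YM.lf U) x D c =
      T2h94.lam a D * T2h94.Cc B.toLD b c D (YM.zt l x) U := by
  unfold comp T2h94.lam T2h94.Cc
  have h1 : (trace ((B.X c)ᴴ * covD (YM.lf U) D.1 D.2 x)).re =
      YM.ip (B.toLD.X c) (T2h94.cvT B.toLD U D.1 D.2 (YM.zt l x)) := by
    have h2 : ∀ M : Mt N, YM.ip (B.toLD.X c) Mᴴ = -YM.ip (B.toLD.X c) M := by
      intro M
      have h3 := T2h94.ip_ct (B.toLD.X c)ᴴ M
      rw [conjTranspose_conjTranspose] at h3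
      rw [h3, YM.skew, YM.ip_apply, YM.ip_apply, conjTranspose_neg, neg_mul, trace_neg,
        Complex.neg_re]
    have h4 : (trace ((B.X c)ᴴ * covD (YM.lf U) D.1 D.2 x)).re =
      YM.ip (B.toLD.X c) (covD (YM.lf U) D.1 D.2 x) := (YM.ip_apply _ _).symm
    rw [h4, covD_lf B, map_smul, map_sub, h2, smul_eq_mul]
    ring
  rw [h1, hb]
  have h5 : Real.sqrt (b ^ 4 / a ^ d) = b ^ 2 / Real.sqrt a ^ d := by
    rw [Real.sqrt_div (by positivity)]
    have h6 : b ^ 4 = (b ^ 2) ^ 2 := by ring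
    rw [h6, Real.sqrt_sq (by positivity)]
    congr 1
    rw [Real.sqrt_eq_iff_mul_self_eq (by positivity) (by positivity), ← pow_two, ← pow_mul,
      mul_comm d 2, pow_mul, Real.sq_sqrt ha.le]
  have h7 : Real.sqrt a ^ (d + 2 * D.2.length) = Real.sqrt a ^ d * a ^ D.2.length := by
    rw [pow_add, pow_mul, Real.sq_sqrt ha.le]
  rw [h5, h7, mul_inv]
  ring

lemma comp_cont (a β : ℝ) (X : Fin n → Mt N) (x : Fin d → ℤ) (D : Slot d) (c : Fin n) :
    Continuous fun V : LinkZ d → G => comp a β X V x D c := by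
  have hc : ∀ e : LinkZ d, Continuous fun V : LinkZ d → G => V e := fun e => continuous_apply e
  have h2 : Continuous (mt : G → Mt N) := continuous_subtype_val.comp continuous_subtype_val
  have h5 : ∀ (m : List (Fin d)) (x : Fin d → ℤ), Continuous fun V : LinkZ d → G =>
      covD V D.1 m x := by
    intro m
    induction m with
    | nil =>
      intro x
      have h0 : Continuous fun V : LinkZ d → G => plaqZ V x D.1.1 D.1.2 := by
        show Continuous fun V : LinkZ d → G => V (x, D.1.1) * V (x + Pi.single D.1.1 1, D.1.2) *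
          (V (x + Pi.single D.1.2 1, D.1.1))⁻¹ * (V (x, D.1.2))⁻¹
        exact (((hc _).mul (hc _)).mul (hc _).inv).mul (hc _).inv
      have h4 : Continuous fun V : LinkZ d → G => mt (plaqZ V x D.1.1 D.1.2) -
          (mt (plaqZ V x D.1.1 D.1.2))ᴴ := (h2.comp h0).sub (h2.comp h0).matrix_conjTranspose
      exact h4.const_smul (1 / 2 : ℝ)
    | cons k m ih =>
      intro x
      have h1 : Continuous fun V : LinkZ d → G => mt (V (x, k)) := h2.comp (hc _)
      exact ((h1.matrix_mul (ih _)).matrix_mul h1.matrix_conjTranspose).sub (ih _)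
  exact continuous_const.mul (Complex.continuous_re.comp
    ((continuous_const.matrix_mul (h5 D.2 x)).matrix_trace))

/-- the local field in terms of the Wick products -/
lemma localField_eq (a β : ℝ) (X : Fin n → Mt N) (ν : Measure (LinkZ d → G)) {k : ℕ}
    (P : MultilinearMap ℝ (fun _ : Fin k => Mt N) ℝ) (D : Fin k → Slot d) (x : Fin d → ℤ)
    (V : LinkZ d → G) : localField a β X ν P D x V = ∑ c : Fin k → Fin n, P (fun i => X (c i)) *
      T2h94.Wp (fun i j => if c i = c j then selfCov a β X ν x (D i) (D j) else 0)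
        fun i => comp a β X V x (D i) (c i) := by
  unfold localField wickProd T2h94.Wp
  simp only [pairings_eq]

/-- the expectations of the products of the local fields in the infinite volume -/
lemma field_lim {r : ℕ} {k : Fin r → ℕ} {a β b : ℝ} (ha : 0 < a) (hb : β = b ^ 4)
    {ν : Measure (LinkZ d → G)} [IsProbabilityMeasure ν] {s : ℕ → ℕ}
    (hlim : ∀ F : (LinkZ d → G) → ℝ, Continuous F →
      Tendsto (fun j => expect (2 * (s j + 1)) μ β F) atTop (𝓝 (∫ V, F V ∂ν)))
    (P : (t : Fin r) → MultilinearMap ℝ (fun _ : Fin (k t) => Mt N) ℝ)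
    (D : (t : Fin r) → Fin (k t) → Slot d) (y : Fin r → Fin d → ℤ) :
    Tendsto (fun j => (∏ i : T2h94.Lw k, T2h94.lam a (D (ofLex i).1 (ofLex i).2)) *
        YM.EX μ B.toLD (b ^ 4) (fun U : YM.Ed d (2 * (s j + 1)) → G =>
          ∏ t, T2h94.Op B.toLD b (fun c => P t fun i => B.X (c i))
            (T2h94.sg μ B.toLD b (YM.zt (2 * (s j + 1)) (y t))) (D t)
            (YM.zt (2 * (s j + 1)) (y t)) U)) atTop
      (𝓝 (∫ V, ∏ t, localField a β B.X ν (P t) (D t) (y t) V ∂ν)) := by
  have := right_inv μ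
  have := inv_inv' μ
  have hint : ∀ H : (LinkZ d → G) → ℝ, Continuous H → Integrable H ν := fun H hH =>
    hH.integrable_of_hasCompactSupport (HasCompactSupport.of_compactSpace _)
  -- the components
  obtain ⟨F, hF⟩ : ∃ F : ((t : Fin r) → Fin (k t) → Fin n) → Finset (T2h94.Lw k) →
      (LinkZ d → G) → ℝ, F = fun γ T V => ∏ i ∈ T, comp a β B.X V (y (ofLex i).1)
        (D (ofLex i).1 (ofLex i).2) (γ (ofLex i).1 (ofLex i).2) := ⟨_, rfl⟩
  have hFc : ∀ γ T, Continuous (F γ T) := fun γ T => by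
    rw [hF]
    exact continuous_finsetProd _ fun i _ => comp_cont _ _ _ _ _ _
  -- the limit, expanded
  obtain ⟨σ, hσ⟩ : ∃ σ : Fin r → Slot d → Slot d → ℝ, σ = fun t => selfCov a β B.X ν (y t) :=
    ⟨_, rfl⟩
  have e1 : ∫ V, ∏ t, localField a β B.X ν (P t) (D t) (y t) V ∂ν =
      ∑ γ : (t : Fin r) → Fin (k t) → Fin n, (∏ t, P t fun i => B.X (γ t i)) *
        ∑ T : Finset (T2h94.Lw k), T2h94.wick (T2h94.Bs σ D γ) Tᶜ * ∫ V, F γ T V ∂ν := by
    have e2 : ∀ V, ∏ t, localField a β B.X ν (P t) (D t) (y t) V =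
        ∑ γ : (t : Fin r) → Fin (k t) → Fin n, (∏ t, P t fun i => B.X (γ t i)) *
        ∑ T : Finset (T2h94.Lw k), T2h94.wick (T2h94.Bs σ D γ) Tᶜ * F γ T V := by
      intro V
      simp only [localField_eq]
      have h := T2h94.prod_Wp (fun t (c : Fin (k t) → Fin n) => P t fun i => B.X (c i)) σ D
        fun t c E => comp a β B.X V (y t) E c
      rw [hσ] at h ⊢
      rw [hF]
      exact h
    simp only [e2]
    rw [integral_finsetSum _ fun γ _ => (integrable_finsetSum _ fun T _ =>
      (hint _ (hFc γ T)).const_mul _).const_mul _]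
    refine Finset.sum_congr rfl fun γ _ => ?_
    rw [integral_const_mul]
    congr 1
    rw [integral_finsetSum _ fun T _ => (hint _ (hFc γ T)).const_mul _]
    refine Finset.sum_congr rfl fun T _ => ?_
    rw [integral_const_mul]
  rw [e1]
  -- the periodic lattices
  obtain ⟨τ, hτ⟩ : ∃ τ : ℕ → Fin r → Slot d → Slot d → ℝ, τ = fun j t E E' =>
    (n : ℝ)⁻¹ * ∑ c, expect (2 * (s j + 1)) μ β fun V => comp a β B.X V (y t) E c *
      comp a β B.X V (y t) E' c := ⟨_, rfl⟩
  have hτ' : ∀ j t E E', τ j t E E' = T2h94.lam a E * T2h94.lam a E' *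
      T2h94.sg μ B.toLD b (YM.zt (2 * (s j + 1)) (y t)) E E' := by
    intro j t E E'
    rw [hτ]
    unfold T2h94.sg
    simp only [one_div]
    have h1 : ∀ c : Fin n, expect (2 * (s j + 1)) μ β (fun V => comp a β B.X V (y t) E c *
        comp a β B.X V (y t) E' c) = (T2h94.lam a E * T2h94.lam a E') *
        YM.EX μ B.toLD (b ^ 4) (fun U : YM.Ed d (2 * (s j + 1)) → G =>
          T2h94.Cc B.toLD b c E (YM.zt (2 * (s j + 1)) (y t)) U *
          T2h94.Cc B.toLD b c E' (YM.zt (2 * (s j + 1)) (y t)) U) := by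
      intro c
      rw [expect_eq μ B, ← YM.EX_smul, hb]
      congr 1
      funext U
      rw [← hb, comp_lf B ha hb, comp_lf B ha hb]
      ring
    rw [Finset.sum_congr rfl fun c _ => h1 c, ← Finset.mul_sum]
    ring
  have e3 : ∀ j, (∏ i : T2h94.Lw k, T2h94.lam a (D (ofLex i).1 (ofLex i).2)) *
        YM.EX μ B.toLD (b ^ 4) (fun U : YM.Ed d (2 * (s j + 1)) → G =>
          ∏ t, T2h94.Op B.toLD b (fun c => P t fun i => B.X (c i))
            (T2h94.sg μ B.toLD b (YM.zt (2 * (s j + 1)) (y t))) (D t)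
            (YM.zt (2 * (s j + 1)) (y t)) U) =
      ∑ γ : (t : Fin r) → Fin (k t) → Fin n, (∏ t, P t fun i => B.X (γ t i)) *
        ∑ T : Finset (T2h94.Lw k), T2h94.wick (T2h94.Bs (τ j) D γ) Tᶜ *
          expect (2 * (s j + 1)) μ β (F γ T) := by
    intro j
    rw [← YM.EX_smul]
    have e4 : (fun U : YM.Ed d (2 * (s j + 1)) → G =>
        (∏ i : T2h94.Lw k, T2h94.lam a (D (ofLex i).1 (ofLex i).2)) *
          ∏ t, T2h94.Op B.toLD b (fun c => P t fun i => B.X (c i))
            (T2h94.sg μ B.toLD b (YM.zt (2 * (s j + 1)) (y t))) (D t)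
            (YM.zt (2 * (s j + 1)) (y t)) U) = fun U =>
        ∑ γ : (t : Fin r) → Fin (k t) → Fin n, (∏ t, P t fun i => B.X (γ t i)) *
        ∑ T : Finset (T2h94.Lw k), T2h94.wick (T2h94.Bs (τ j) D γ) Tᶜ * F γ T (YM.lf U) := by
      funext U
      have h := T2h94.prod_Wp (fun t (c : Fin (k t) → Fin n) => P t fun i => B.X (c i)) (τ j) D
        fun t c E => comp a β B.X (YM.lf U) (y t) E c
      rw [hF]
      rw [← h]
      have h2 : ∏ i : T2h94.Lw k, T2h94.lam a (D (ofLex i).1 (ofLex i).2) =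
          ∏ t, ∏ i, T2h94.lam a (D t i) := by
        have h3 : ∏ i : T2h94.Lw k, T2h94.lam a (D (ofLex i).1 (ofLex i).2) =
            ∏ i : (t : Fin r) × Fin (k t), T2h94.lam a (D i.1 i.2) :=
          Fintype.prod_equiv ofLex _ _ fun i => rfl
        rw [h3, Fintype.prod_sigma]
      rw [h2, ← Finset.prod_mul_distrib]
      refine Finset.prod_congr rfl fun t _ => ?_
      unfold T2h94.Op
      rw [Finset.mul_sum]
      refine Finset.sum_congr rfl fun c _ => ?_
      rw [mul_left_comm]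
      congr 1
      rw [← T2h94.Wp_smul]
      congr 1
      · funext i j'
        by_cases hc : c i = c j'
        · simp only [if_pos hc]; exact (hτ' j t _ _).symm
        · simp only [if_neg hc, mul_zero]
      · funext i
        exact (comp_lf B ha hb U (y t) (D t i) (c i)).symm
    rw [e4]
    have hlfc : Continuous (YM.lf : (YM.Ed d (2 * (s j + 1)) → G) → LinkZ d → G) :=
      continuous_pi fun e => continuous_apply _
    rw [YM.EX_sum μ Finset.univ (F := fun (γ : (t : Fin r) → Fin (k t) → Fin n)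
      (U : YM.Ed d (2 * (s j + 1)) → G) => (∏ t, P t fun i => B.X (γ t i)) *
        ∑ T : Finset (T2h94.Lw k), T2h94.wick (T2h94.Bs (τ j) D γ) Tᶜ * F γ T (YM.lf U))
      fun γ _ => continuous_const.mul (continuous_finsetSum _ fun T _ =>
        continuous_const.mul ((hFc γ T).comp hlfc))]
    refine Finset.sum_congr rfl fun γ _ => ?_
    rw [YM.EX_smul]
    congr 1
    rw [YM.EX_sum μ Finset.univ (F := fun (T : Finset (T2h94.Lw k))
      (U : YM.Ed d (2 * (s j + 1)) → G) => T2h94.wick (T2h94.Bs (τ j) D γ) Tᶜ *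
        F γ T (YM.lf U)) fun T _ => continuous_const.mul ((hFc γ T).comp hlfc)]
    refine Finset.sum_congr rfl fun T _ => ?_
    rw [YM.EX_smul, expect_eq μ B β (F γ T), hb]
  simp only [e3]
  refine tendsto_finsetSum _ fun γ _ => Tendsto.const_mul _ ?_
  refine tendsto_finsetSum _ fun T _ => ?_
  refine Tendsto.mul (T2h94.wick_tendsto _ fun i _ j _ _ => ?_) (hlim _ (hFc γ T))
  unfold T2h94.Bs
  have hτσ : ∀ t E E', Tendsto (fun j => τ j t E E') atTop (𝓝 (σ t E E')) := by
    intro t E E'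
    rw [hτ, hσ]
    refine Tendsto.const_mul _ (tendsto_finsetSum _ fun c _ => ?_)
    exact hlim _ ((comp_cont _ _ _ _ _ _).mul (comp_cont _ _ _ _ _ _))
  split_ifs
  · exact (hτσ _ _ _).neg
  · exact tendsto_const_nhds
  · exact tendsto_const_nhds

end bridge

lemma pd_eq {d : ℕ} (f : (Fin d → ℝ) → ℝ) (m : List (Fin d)) : T2h94.pd f m = partials f m := by
  induction m with
  | nil => rfl
  | cons l m ih =>
    funext X
    show fderiv ℝ (T2h94.pd f m) X (Pi.single l 1) = fderiv ℝ (partials f m) X (Pi.single l 1)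
    rw [ih]

lemma Cx_eq {n d r : ℕ} {k : Fin r → ℕ} (D : (s : Fin r) → Fin (k s) → Slot d)
    (x : Fin r → Fin d → ℝ) (c : (s : Fin r) → Fin (k s) → Fin n) :
    T2h94.Cx D x c = legCov D x c := by
  funext i j
  unfold T2h94.Cx legCov maxwell T2h94.Kk
  simp only [pd_eq]
  rfl

lemma maxwellCorr_eq {N n d r : ℕ} {k : Fin r → ℕ} (X : Fin n → Mt N)
    (P : (s : Fin r) → MultilinearMap ℝ (fun _ : Fin (k s) => Mt N) ℝ)
    (D : (s : Fin r) → Fin (k s) → Slot d) (x : Fin r → Fin d → ℝ) :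
    maxwellCorr X P D x = ∑ c : (s : Fin r) → Fin (k s) → Fin n, (∏ s, P s fun i => X (c s i)) *
      T2h94.wick (T2h94.Cx D x c) Finset.univ := by
  unfold maxwellCorr
  simp only [pairings_eq, Cx_eq]

/-- In dimension `d ≥ 3`, for every closed subgroup `G` of `U(N)`, all lattice spacings `a_i → 0`
and inverse couplings `β_i ≥ a_i ^ (-power)` and all infinite volume limits `ν_i` of the lattice
Yang-Mills theories at `β_i`, the `r` point functions of the gauge invariant local fields
`:P_s(∇_{m_1} F_{p_1}, …, ∇_{m_k} F_{p_k}):`, the `P_s` being any invariant multilinear forms, at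
lattice points `y_{i,s}` with `a_i y_{i,s} → x_s`, the points `x_s ∈ ℝ^d` being different, converge
to those of the corresponding Wick polynomials of the curvatures of `dim G` independent free
Maxwell fields. -/
theorem result {N d : ℕ} (hd : 3 ≤ d) (G : Subgroup (UU N))
    (hG : IsClosed (G : Set (UU N))) [MeasurableSpace G] [BorelSpace G]
    (μ : Measure G) [IsProbabilityMeasure μ] [μ.IsHaarMeasure] :
    (∃ (n : ℕ) (X : Fin n → Mt N), IsLieBasis G X) ∧
    (∀ β : ℝ, ∃ ν : Measure (LinkZ d → G), IsInfVol μ β ν) ∧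
    ∀ (n : ℕ) (X : Fin n → Mt N), IsLieBasis G X →
      ∀ (r : ℕ) (k : Fin r → ℕ) (P : (s : Fin r) → MultilinearMap ℝ (fun _ : Fin (k s) => Mt N) ℝ),
      (∀ s, IsInvariant G (P s)) → ∀ D : (s : Fin r) → Fin (k s) → Slot d,
      ∀ a β : ℕ → ℝ, (∀ i, 0 < a i) → Tendsto a atTop (𝓝 0) →
      (∀ᶠ i in atTop, 1 ≤ β i * a i ^ power d (∑ s, k s) (∑ s, ∑ j, (D s j).2.length)) →
      ∀ ν : ℕ → Measure (LinkZ d → G), (∀ i, IsInfVol μ (β i) (ν i)) →
      ∀ x : Fin r → Fin d → ℝ, Function.Injective x →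
      ∀ y : ℕ → Fin r → Fin d → ℤ,
        (∀ s j, Tendsto (fun i => a i * (y i s j : ℝ)) atTop (𝓝 (x s j))) →
        Tendsto (fun i => ∫ V, ∏ s, localField (a i) (β i) X (ν i) (P s) (D s) (y i s) V ∂(ν i))
          atTop (𝓝 (maxwellCorr X P D x)) := by
  have : CompactSpace G := by
    have h1 : IsCompact (G : Set (UU N)) := hG.isCompact
    exact isCompact_iff_compactSpace.1 h1
  have h00 : SecondCountableTopology (UU N) := TopologicalSpace.Subtype.secondCountableTopology _
  have : SecondCountableTopology G := TopologicalSpace.Subtype.secondCountableTopology _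
  have := right_inv μ
  have := inv_inv' μ
  obtain ⟨n0, ⟨B0⟩⟩ := YM.exists_frame hG
  refine ⟨⟨n0, B0.X, ⟨fun a t => ⟨B0.ex a t, B0.ex_eq a t⟩, B0.orth, B0.full⟩⟩,
    fun β => exists_infVol μ B0 β, ?_⟩
  intro n X hX r k P hP D a β ha ha0 hβ ν hν x hx y hy
  obtain ⟨hX1, hX2, hX3⟩ := hX
  choose ex hex using hX1
  obtain ⟨B, hB⟩ : ∃ B : YM.Frame G n, B.X = X := ⟨⟨X, ex, hex, hX2, hX3⟩, rfl⟩
  obtain ⟨κ, hκ⟩ : ∃ κ, κ = ∑ s, k s := ⟨_, rfl⟩
  obtain ⟨δ, hδ⟩ : ∃ δ, δ = ∑ s, ∑ j, (D s j).2.length := ⟨_, rfl⟩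
  obtain ⟨Pe, hPe⟩ : ∃ Pe, Pe = d * (κ + 2 + 2) + 3 := ⟨_, rfl⟩
  obtain ⟨A, hA⟩ : ∃ A, A = 4 * Pe + 1 := ⟨_, rfl⟩
  obtain ⟨Be, hBe⟩ : ∃ Be, Be = d * κ + 2 * δ + 1 := ⟨_, rfl⟩
  obtain ⟨p, hp⟩ : ∃ p, p = A * Be + 1 := ⟨_, rfl⟩
  obtain ⟨q, hq⟩ : ∃ q, q = A * p := ⟨_, rfl⟩
  have hpow : power d (∑ s, k s) (∑ s, ∑ j, (D s j).2.length) = p := by
    rw [← hκ, ← hδ, hp, hA, hPe, hBe]
    unfold power
    ring
  rw [hpow] at hβ
  have hA1 : 1 ≤ A := by omega
  have hBe1 : 1 ≤ Be := by omega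
  have hpA : A + 1 ≤ p := by
    rw [hp]
    have := Nat.mul_le_mul_left A hBe1
    omega
  have hq0 : 4 * q ≠ 0 := by
    rw [hq]
    have : 0 < A * p := Nat.mul_pos (by omega) (by omega)
    omega
  have hℓ : ∀ s i, (D s i).2.length ≤ δ := by
    intro s i
    rw [hδ]
    exact (Finset.single_le_sum (f := fun j => (D s j).2.length) (fun _ _ => Nat.zero_le _)
      (Finset.mem_univ i)).trans (Finset.single_le_sum (f := fun s => ∑ j, (D s j).2.length)
      (fun _ _ => Nat.zero_le _) (Finset.mem_univ s))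
  have hPi : ∀ s (g : G) (γ : Fin (k s) → Fin n), (P s fun i => B.X (γ i)) =
      ∑ α : Fin (k s) → Fin n, (∏ i, B.toLD.adm g (α i) (γ i)) * P s fun i => B.X (α i) := by
    intro s g γ
    refine T2h94.inv_form (L := B.toLD) (P s) (fun g c => ?_) g γ
    exact hP s g (fun i => B.X (c i)) fun i t => ⟨B.ex (c i) t, B.ex_eq (c i) t⟩
  obtain ⟨C, hC, hmain⟩ := T2h94.lattice_w μ (L := B.toLD) hd q r k D
    (fun s c => P s fun i => B.X (c i)) hPi (κ + 2) δ
    (by rw [T2h94.card_Lw, ← hκ]; omega) (by omega) hℓ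
  rw [← hPe] at hmain
  obtain ⟨c, hc⟩ : ∃ c : ℕ → ℝ, c = fun i => β i ^ (((4 * q : ℕ) : ℝ)⁻¹) := ⟨_, rfl⟩
  obtain ⟨K, hK⟩ : ∃ K : ℕ → ℕ, K = fun i => ⌈c i⌉₊ ^ (8 * p) := ⟨_, rfl⟩
  -- the couplings
  have hcβ : ∀ᶠ i in atTop, 1 ≤ c i ∧ 1 ≤ c i ^ (4 * A) * a i ∧ β i = (c i ^ q) ^ 4 ∧ a i ≤ 1 := by
    filter_upwards [hβ, ha0.eventually (ge_mem_nhds one_pos)] with i h1 h2
    have hai := ha i
    have hβ0 : 0 < β i := by
      by_contra h
      push Not at h
      have : β i * a i ^ p ≤ 0 := mul_nonpos_of_nonpos_of_nonneg h (by positivity)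
      linarith
    have h3 : c i ^ (4 * q) = β i := by
      rw [hc]; exact Real.rpow_inv_natCast_pow hβ0.le hq0
    have hc0 : 0 < c i := by rw [hc]; exact Real.rpow_pos_of_pos hβ0 _
    have h4 : 1 ≤ c i ^ (4 * A) * a i := by
      by_contra h
      push Not at h
      have h5 := pow_lt_one₀ (by positivity) h (show p ≠ 0 by omega)
      rw [mul_pow, ← pow_mul] at h5
      have h6 : 4 * A * p = 4 * q := by rw [hq]; ring
      rw [h6, h3] at h5
      linarith
    refine ⟨?_, h4, ?_, h2⟩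
    · by_contra h
      push Not at h
      have h5 := pow_le_one₀ (n := 4 * A) hc0.le h.le
      have h6 : c i ^ (4 * A) < 1 := pow_lt_one₀ hc0.le h (by omega)
      nlinarith
    · rw [← pow_mul, mul_comm q 4, h3]
  have hinv : Tendsto (fun i => (a i)⁻¹) atTop atTop :=
    (tendsto_nhdsWithin_iff.2 ⟨ha0, Eventually.of_forall fun i => ha i⟩).inv_tendsto_nhdsGT_zero
  have hcA : Tendsto (fun i => c i ^ (4 * A)) atTop atTop := by
    refine tendsto_atTop_mono' atTop ?_ hinv
    filter_upwards [hcβ] with i hi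
    rw [inv_le_iff_one_le_mul₀ (ha i)]
    exact hi.2.1
  have hct : Tendsto c atTop atTop := by
    refine tendsto_atTop.2 fun M => ?_
    filter_upwards [hcβ, hcA.eventually (eventually_ge_atTop (max M 1 ^ (4 * A)))] with i hi h1
    have h2 : max M 1 ≤ c i := by
      by_contra h
      push Not at h
      have := pow_lt_pow_left₀ h (by linarith [hi.1]) (show 4 * A ≠ 0 by omega)
      linarith
    exact (le_max_left _ _).trans h2
  have hKlo : ∀ᶠ i in atTop, c i ^ (8 * p) ≤ K i := by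
    filter_upwards [hcβ] with i hi
    rw [hK]; push_cast
    exact pow_le_pow_left₀ (by linarith [hi.1]) (Nat.le_ceil _) _
  have hKa : Tendsto (fun i => (K i : ℝ) * a i ^ 2) atTop atTop := by
    refine tendsto_atTop_mono' atTop ?_ hct
    filter_upwards [hcβ, hKlo] with i hi h3
    obtain ⟨h1, h2, _, _⟩ := hi
    have hai := ha i
    calc c i = c i * 1 ^ 2 := by ring
      _ ≤ c i * (c i ^ (4 * A) * a i) ^ 2 := by
          refine mul_le_mul_of_nonneg_left ?_ (by linarith)
          exact pow_le_pow_left₀ zero_le_one h2 2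
      _ = c i ^ (8 * A + 1) * a i ^ 2 := by
          rw [mul_pow, ← pow_mul, pow_succ]
          have : 4 * A * 2 = 8 * A := by ring
          rw [this]; ring
      _ ≤ c i ^ (8 * p) * a i ^ 2 := by
          refine mul_le_mul_of_nonneg_right ?_ (by positivity)
          exact pow_le_pow_right₀ h1 (by omega)
      _ ≤ _ := mul_le_mul_of_nonneg_right h3 (by positivity)
  -- the points
  have hyB : ∀ᶠ i in atTop, ∀ s j, 2 * |y i s j| + 2 * δ + 2 ≤ (K i : ℤ) := by
    refine eventually_all.2 fun s => eventually_all.2 fun j => ?_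
    have h1 : ∀ᶠ i in atTop, |a i * (y i s j : ℝ)| < |x s j| + 1 :=
      (hy s j).abs.eventually (gt_mem_nhds (by linarith [abs_nonneg (x s j)]))
    have h2 : ∀ᶠ i in atTop, 2 * (|x s j| + 1) + 2 * δ + 2 ≤ (K i : ℝ) * a i ^ 2 :=
      hKa.eventually (eventually_ge_atTop _)
    filter_upwards [h1, h2, hcβ] with i h1 h2 h3
    have hai := ha i
    have ha1 := h3.2.2.2
    rw [abs_mul, abs_of_pos hai] at h1
    have h4 : ((2 * |y i s j| + 2 * δ + 2 : ℤ) : ℝ) * a i ^ 2 ≤ (K i : ℝ) * a i ^ 2 := by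
      refine le_trans ?_ h2
      push_cast
      have h5 : 0 ≤ |(y i s j : ℝ)| := abs_nonneg _
      have h6 : a i ^ 2 ≤ a i := by nlinarith
      have h7 : |(y i s j : ℝ)| * a i ^ 2 ≤ |(y i s j : ℝ)| * a i :=
        mul_le_mul_of_nonneg_left h6 h5
      have h8 : (δ : ℝ) * a i ^ 2 ≤ δ := mul_le_of_le_one_right (Nat.cast_nonneg _) (by nlinarith)
      nlinarith
    have h5 := le_of_mul_le_mul_right h4 (by positivity : 0 < a i ^ 2)
    exact_mod_cast h5
  -- the bound in the infinite volume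
  obtain ⟨I, hI⟩ : ∃ I : ℕ → ℝ, I = fun i =>
    ∫ V, ∏ s, localField (a i) (β i) X (ν i) (P s) (D s) (y i s) V ∂(ν i) := ⟨_, rfl⟩
  obtain ⟨w, hw⟩ : ∃ w : ℕ → ℝ, w = fun i =>
    ∏ j : T2h94.Lw k, T2h94.lam (a i) (D (ofLex j).1 (ofLex j).2) := ⟨_, rfl⟩
  obtain ⟨W, hW⟩ : ∃ W : ℕ → ℝ, W = fun i => ∑ γ : (s : Fin r) → Fin (k s) → Fin n,
    (∏ s, P s fun j => B.X (γ s j)) * T2h94.wick (T2h94.Cq (K i) D (y i) γ) Finset.univ :=
    ⟨_, rfl⟩
  obtain ⟨H, hH⟩ : ∃ H : ℝ, H = (2 + 2 ^ (8 * p * Pe)) ^ (κ + 2 + 1 + 1) := ⟨_, rfl⟩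
  have hbd : ∀ᶠ i in atTop, |I i - w i * W i| ≤ C * H / c i := by
    filter_upwards [hcβ, hyB] with i h1 h2
    obtain ⟨hc1, hca, hβi, ha1⟩ := h1
    have hai := ha i
    have hci : 0 < c i := by linarith
    have hK1 : 1 ≤ K i := by
      rw [hK]
      exact Nat.one_le_pow _ _ (Nat.ceil_pos.2 hci)
    obtain ⟨s, hs, hlim⟩ := (hν i).lim
    have := (hν i).prob
    have hT := field_lim μ B hai hβi hlim P D (y i)
    rw [hB] at hT
    have hI' : I i = ∫ V, ∏ s, localField (a i) (β i) X (ν i) (P s) (D s) (y i s) V ∂(ν i) := by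
      rw [hI]
    have hw' : w i = ∏ j : T2h94.Lw k, T2h94.lam (a i) (D (ofLex j).1 (ofLex j).2) := by rw [hw]
    have hW' : W i = ∑ γ : (s : Fin r) → Fin (k s) → Fin n,
      (∏ s, P s fun j => B.X (γ s j)) * T2h94.wick (T2h94.Cq (K i) D (y i) γ) Finset.univ := by
      rw [hW]
    rw [← hI', ← hw'] at hT
    obtain ⟨e, he⟩ : ∃ e : ℝ, e = c i * (1 / Real.sqrt (Real.sqrt (K i)) +
      (K i : ℝ) ^ Pe / (c i ^ q) ^ 2) := ⟨_, rfl⟩
    have hwi : w i = (Real.sqrt (a i) ^ (d * κ + 2 * δ))⁻¹ := by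
      rw [hw', T2h94.prod_lam, ← hκ, ← hδ]
    have hw0 : 0 ≤ w i := by rw [hwi]; positivity
    have hle : |I i - w i * W i| ≤ w i * (C * (e * (1 + e) ^ (κ + 2 + 1))) := by
      refine le_of_tendsto (hT.sub_const (w i * W i)).abs ?_
      filter_upwards [hs.eventually (eventually_gt_atTop (3 * K i + 5))] with j hj
      have h3 := hmain (c i) hc1 (s j + 1) (K i) hK1 (by omega) (y i) h2 e he
      rw [← hW'] at h3
      rw [← mul_sub, abs_mul, abs_of_nonneg hw0]
      rw [hB] at h3
      exact mul_le_mul_of_nonneg_left h3 hw0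
    have h4 := T2h94.err_w (Bx := d * κ + 2 * δ) (j := κ + 2 + 1) hA hp hq (by omega) hc1 hai ha1
      hca (K := K i) (by rw [hK]) he
    rw [← hwi, ← hH] at h4
    calc |I i - w i * W i| ≤ w i * (C * (e * (1 + e) ^ (κ + 2 + 1))) := hle
      _ = C * (w i * (e * (1 + e) ^ (κ + 2 + 1))) := by ring
      _ ≤ C * (H / c i) := mul_le_mul_of_nonneg_left h4 hC.le
      _ = _ := by ring
  -- the limit
  have hWlim := T2h94.wick_w_lim (n := n) hd D (fun s c => P s fun i => B.X (c i)) ha ha0 hKa hx hy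
  have hdiff : Tendsto (fun i => I i - w i * W i) atTop (𝓝 0) := by
    refine squeeze_zero_norm' ?_ (hct.const_div_atTop (C * H))
    simpa only [Real.norm_eq_abs] using hbd
  have hsum := hdiff.add hWlim
  rw [zero_add, hB, ← maxwellCorr_eq] at hsum
  refine hsum.congr fun i => ?_
  rw [hI, hw, hW, hB]
  ring

end

end Pool.Agent.Results.MP_7f377f_mp.C_LocalFields
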