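import Mathlib
import Pool.Agent.T2h96.Fin

/-!
# Lattice Yang-Mills theory: mass gap when the large couplings form a forest of planes

Lattice gauge theory on `ℤ^d` with an arbitrary compact gauge group `G` (second countable, for
example a closed subgroup of `U(N)`), in an arbitrary finite volume `P` (a finite set of
plaquettes) and with arbitrary plaquette weights `W p : G → ℝ`, which may depend on the position.
Wilson's weight `exp (β Re tr g)` is a special case. A pair of directions `{i, j}` is the plane of
the plaquettes parallel to it. Let the planes of the edges of a forest `F` on the set of the
directions be distinguished: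
* for the isolated edges of `F` there is no condition on the weights, they need not be bounded away
  from zero or from infinity uniformly, and the constants do not depend on them: this includes
  Wilson's weights with all `β` between `0` and `∞`;
* for the other edges of `F` the weights are between `exp (-B)` and `exp B`, `B` arbitrary;
* for all other planes they are between `exp (-ε)` and `exp ε`, with `ε > 0` depending on `d, B`.
Then the truncated correlations decay exponentially at a rate `m = m(d, B) > 0`, uniformly in the
volume, in the group and in the weights. The infinite volume theory exists, it is a probability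
measure `ν` on the gauge fields, and its correlations decay in the same way. If the weights depend
only on the plane and are even class functions, then `ν` is invariant under translations and
reflections and reflection positive, with any direction as the Euclidean time, and the transfer
operator of the reconstructed quantum theory has norm at most `exp (-m)` on the orthogonal
complement of the vacuum (`OSGap`): the mass gap is at least `m`.
In dimension `4`, three of the six couplings may be arbitrary, or two orthogonal ones (for example
those of the planes `12` and `34`) may be arbitrary with a gap uniform up to `β = ∞`.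
-/

open MeasureTheory Filter Pool.Agent.T2h96
open scoped Topology

namespace Pool.Agent.Results.MP_7f377f_mp.D_ForestMassGap

theorem result (d : ℕ) (B : ℝ) :
    ∃ (ε m : ℝ) (C : ℕ → ℝ), 0 < ε ∧ 0 < m ∧
      ∀ F : SimpleGraph (Fin d), F.IsAcyclic →
      ∀ (G : Type) [Group G] [TopologicalSpace G] [IsTopologicalGroup G] [CompactSpace G]
        [T2Space G] [SecondCountableTopology G] [MeasurableSpace G] [BorelSpace G]
        (μ : Measure G) [μ.IsHaarMeasure] [IsProbabilityMeasure μ] (W : Plaq d → G → ℝ),
        Adm F B ε W →
        -- exponential decay of the correlations in all finite volumes
        (∀ P : Finset (Plaq d), Clusters m C (expect μ W P)) ∧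
        -- the infinite volume theory
        ∀ c c' : ℝ, 0 < c → (∀ p g, c ≤ W p g ∧ W p g ≤ c') →
          ∃ ν : Measure (Link d → G), IsProbabilityMeasure ν ∧
            (∀ A : (Link d → G) → ℝ, IsLoc A →
              Tendsto (fun P => expect μ W P A) atTop (𝓝 (∫ U, A U ∂ν))) ∧
            Clusters m C (fun A => ∫ U, A U ∂ν) ∧
            -- the mass gap
            (Homog W → ∀ τ : Fin d, OSGap m τ ν) := by
  obtain ⟨ε, hε, m, hm, h⟩ := forest_gap d B
  choose C hC h using h
  refine ⟨ε, m, C, hε, hm, ?_⟩
  intro F hF G _ _ _ _ _ _ _ _ μ _ _ W hW
  have hcl : ∀ P : Finset (Plaq d), Clusters m C (expect μ W P) :=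
    fun P r x y A A' a a' hA hA' ha ha' hd hd' k =>
      h r F hF G μ W hW P x y A A' hA hA' a a' ha ha' hd hd' k
  exact ⟨hcl, fun c c' hc hWc => theory μ hm ⟨hW.meas, hW.nonneg, hW.bdd⟩ hcl c c' hc hWc⟩

end Pool.Agent.Results.MP_7f377f_mp.D_ForestMassGap
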